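import Pool.Agent.W393.LR.Stmts

/-!
`S_MH`: a finitely generated subgroup of a free group is separated in a subgroup of finite index
(M. Hall's theorem with walls), given the edge cocycle `S_FGD`. Task LR-MH for helper393.
-/

set_option autoImplicit false

namespace Pool.Agent.W809.MH

open Pool.Agent.W393.LR

section cocycle

variable {B : Type} {D : FreeGroup B → Set (FreeGroup B × B)}

theorem D_one (h2 : ∀ x y e, e ∈ D (x * y) ↔ ¬ (e ∈ D x ↔ (x⁻¹ * e.1, e.2) ∈ D y))
    (e : FreeGroup B × B) : e ∉ D 1 := by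
  intro h
  have := h2 1 1 e
  simp only [mul_one, inv_one, one_mul, iff_self, not_true_eq_false, iff_false] at this
  exact this h

theorem D_inv (h2 : ∀ x y e, e ∈ D (x * y) ↔ ¬ (e ∈ D x ↔ (x⁻¹ * e.1, e.2) ∈ D y))
    (x : FreeGroup B) (e : FreeGroup B × B) : e ∈ D x⁻¹ ↔ (x * e.1, e.2) ∈ D x := by
  have := h2 x⁻¹ x e
  rw [inv_mul_cancel, inv_inv] at this
  have h1 := D_one h2 e
  tauto

theorem exists_V
    (h2 : ∀ x y e, e ∈ D (x * y) ↔ ¬ (e ∈ D x ↔ (x⁻¹ * e.1, e.2) ∈ D y))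
    (h3 : ∀ b, D (FreeGroup.of b) = {(1, b)}) (x : FreeGroup B) :
    ∃ V : Set (FreeGroup B), V.Finite ∧ 1 ∈ V ∧ x ∈ V ∧
      (∀ v ∈ V, ∀ e ∈ D v, e.1 ∈ V ∧ e.1 * FreeGroup.of e.2 ∈ V) ∧
      (∀ A : Set (FreeGroup B), 1 ∈ A →
        (∀ y b, y ∈ V → y * FreeGroup.of b ∈ V → (y ∈ A ↔ y * FreeGroup.of b ∈ A)) →
        V ⊆ A) := by
  have hx : x ∈ Subgroup.closure (Set.range (FreeGroup.of : B → FreeGroup B)) := by
    rw [FreeGroup.closure_range_of]; trivial
  induction hx using Subgroup.closure_induction_right with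
  | one =>
    refine ⟨{1}, Set.finite_singleton _, rfl, rfl, ?_, ?_⟩
    · rintro v rfl e he
      exact absurd he (D_one h2 e)
    · rintro A h1 _ v rfl
      exact h1
  | mul_right x _ y hy ih =>
    obtain ⟨b, rfl⟩ := hy
    obtain ⟨V, hf, h1, hx, hV, hA⟩ := ih
    refine ⟨insert (x * FreeGroup.of b) V, hf.insert _, Or.inr h1, Or.inl rfl, ?_, ?_⟩
    · have key : ∀ v ∈ V, ∀ e ∈ D v, e.1 ∈ insert (x * FreeGroup.of b) V ∧
          e.1 * FreeGroup.of e.2 ∈ insert (x * FreeGroup.of b) V :=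
        fun v hv e he => ⟨Or.inr (hV v hv e he).1, Or.inr (hV v hv e he).2⟩
      rintro v (rfl | hv) e he
      · rw [h2] at he
        by_cases hex : e ∈ D x
        · exact key x hx e hex
        · have : (x⁻¹ * e.1, e.2) ∈ D (FreeGroup.of b) := by tauto
          rw [h3] at this
          have h4 := Prod.ext_iff.1 this
          obtain ⟨h5, h6⟩ := h4
          simp only at h5 h6
          have h7 : e.1 = x := (inv_mul_eq_one.1 h5).symm
          rw [h7, h6]
          exact ⟨Or.inr hx, Or.inl rfl⟩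
      · exact key v hv e he
    · intro A h1A hAc
      have hVA : V ⊆ A := hA A h1A fun y b' hy hyb => hAc y b' (Or.inr hy) (Or.inr hyb)
      rintro v (rfl | hv)
      · exact (hAc x b (Or.inr hx) (Or.inl rfl)).1 (hVA hx)
      · exact hVA hv
  | mul_inv_cancel x _ y hy ih =>
    obtain ⟨b, rfl⟩ := hy
    obtain ⟨V, hf, h1, hx, hV, hA⟩ := ih
    refine ⟨insert (x * (FreeGroup.of b)⁻¹) V, hf.insert _, Or.inr h1, Or.inl rfl, ?_, ?_⟩
    · have key : ∀ v ∈ V, ∀ e ∈ D v, e.1 ∈ insert (x * (FreeGroup.of b)⁻¹) V ∧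
          e.1 * FreeGroup.of e.2 ∈ insert (x * (FreeGroup.of b)⁻¹) V :=
        fun v hv e he => ⟨Or.inr (hV v hv e he).1, Or.inr (hV v hv e he).2⟩
      rintro v (rfl | hv) e he
      · rw [h2] at he
        by_cases hex : e ∈ D x
        · exact key x hx e hex
        · have : (x⁻¹ * e.1, e.2) ∈ D (FreeGroup.of b)⁻¹ := by tauto
          rw [D_inv h2, h3] at this
          obtain ⟨h5, h6⟩ := Prod.ext_iff.1 this
          simp only at h5 h6
          have h7 : e.1 = x * (FreeGroup.of b)⁻¹ := by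
            rw [← mul_assoc, mul_eq_one_iff_eq_inv] at h5
            rw [← inv_inj, ← h5, mul_inv_rev, inv_inv]
          rw [h7, h6]
          exact ⟨Or.inl rfl, Or.inr (by simpa using hx)⟩
      · exact key v hv e he
    · intro A h1A hAc
      have hVA : V ⊆ A := hA A h1A fun y b' hy hyb => hAc y b' (Or.inr hy) (Or.inr hyb)
      rintro v (rfl | hv)
      · exact (hAc (x * (FreeGroup.of b)⁻¹) b (Or.inl rfl) (Or.inr (by simpa using hx))).2
          (by simpa using hVA hx)
      · exact hVA hv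

theorem exists_V_set
    (h2 : ∀ x y e, e ∈ D (x * y) ↔ ¬ (e ∈ D x ↔ (x⁻¹ * e.1, e.2) ∈ D y))
    (h3 : ∀ b, D (FreeGroup.of b) = {(1, b)}) (T : Finset (FreeGroup B)) :
    ∃ V : Set (FreeGroup B), V.Finite ∧ 1 ∈ V ∧ (∀ t ∈ T, t ∈ V) ∧
      (∀ v ∈ V, ∀ e ∈ D v, e.1 ∈ V ∧ e.1 * FreeGroup.of e.2 ∈ V) ∧
      (∀ A : Set (FreeGroup B), 1 ∈ A →
        (∀ y b, y ∈ V → y * FreeGroup.of b ∈ V → (y ∈ A ↔ y * FreeGroup.of b ∈ A)) →
        V ⊆ A) := by
  choose V hf h1 hx hV hA using exists_V h2 h3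
  refine ⟨{1} ∪ ⋃ t ∈ T, V t, ?_, Or.inl rfl, ?_, ?_, ?_⟩
  · exact (Set.finite_singleton _).union (T.finite_toSet.biUnion fun t _ => hf t)
  · intro t ht
    exact Or.inr (Set.mem_biUnion ht (hx t))
  · rintro v (rfl | hv) e he
    · exact absurd he (D_one h2 e)
    · obtain ⟨t, ht, hvt⟩ := Set.mem_iUnion₂.1 hv
      exact ⟨Or.inr (Set.mem_biUnion ht (hV t v hvt e he).1),
        Or.inr (Set.mem_biUnion ht (hV t v hvt e he).2)⟩
  · rintro A h1A hAc v (rfl | hv)
    · exact h1A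
    · obtain ⟨t, ht, hvt⟩ := Set.mem_iUnion₂.1 hv
      exact hA t A h1A (fun y b hy hyb => hAc y b (Or.inr (Set.mem_biUnion ht hy))
        (Or.inr (Set.mem_biUnion ht hyb))) hvt

end cocycle

/-- Extending the partial action of `b` on a finite set of cosets to a permutation. -/
theorem exists_perm {F X : Type} [Group F] [MulAction F X] (Y : Set X) (hY : Y.Finite) (b : F) :
    ∃ σ : Equiv.Perm Y, ∀ (y : Y) (h : b • (y : X) ∈ Y), σ y = ⟨b • (y : X), h⟩ := by
  classical
  have := hY.fintype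
  obtain ⟨g, hg⟩ := Set.MapsTo.exists_equiv_extend_of_card_eq (α := Y) (t := Y.toFinset)
    (s := {y : Y | b • (y : X) ∈ Y}) (f := fun y => b • (y : X))
    (by rw [Set.toFinset_card]) (by intro y hy; simpa using! hy)
    (by
      intro y _ y' _ h
      exact Subtype.ext (MulAction.injective b h))
  refine ⟨g.trans (Equiv.subtypeEquivRight (by simp)), ?_⟩
  intro y h
  apply Subtype.ext
  simpa using! hg y h

theorem mh (hD : S_FGD) : S_MH := by
  intro B M hM
  obtain ⟨D, hfin, h2, h3, h4⟩ := hD B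
  obtain ⟨T, hT⟩ := hM
  obtain ⟨V, hVf, hV1, hVT, hVe, hVA⟩ := exists_V_set h2 h3 T
  -- the cosets
  set κ : FreeGroup B → FreeGroup B ⧸ M := fun x => ((x⁻¹ : FreeGroup B) : FreeGroup B ⧸ M)
    with hκ
  have κs : ∀ b x, b • κ x = κ (x * b⁻¹) := by
    intro b x
    simp only [hκ, mul_inv_rev, inv_inv]
    rfl
  have κm : ∀ m ∈ M, ∀ x, κ (m * x) = κ x := by
    intro m hm x
    simp only [hκ]
    rw [QuotientGroup.eq]
    simpa using hm
  set Y : Set (FreeGroup B ⧸ M) := κ '' V with hYdef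
  have hYf : Y.Finite := hVf.image κ
  have : Finite Y := hYf
  choose σ hσ using fun b : B => exists_perm Y hYf (FreeGroup.of b)
  set Ψ : FreeGroup B →* Equiv.Perm Y := FreeGroup.lift σ with hΨ
  have Ψof : ∀ b, Ψ (FreeGroup.of b) = σ b := fun b => by rw [hΨ, FreeGroup.lift_apply_of]
  have y0mem : κ 1 ∈ Y := ⟨1, hV1, rfl⟩
  set y0 : Y := ⟨κ 1, y0mem⟩ with hy0
  -- the finite index subgroup
  set N₁ : Subgroup (FreeGroup B) := (MulAction.stabilizer (Equiv.Perm Y) y0).comap Ψ with hN₁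
  have memN : ∀ x, x ∈ N₁ ↔ Ψ x y0 = y0 := fun x => by
    rw [hN₁, Subgroup.mem_comap, MulAction.mem_stabilizer_iff]; rfl
  have hfi : N₁.FiniteIndex := by
    have : Ψ.ker ≤ N₁ := by
      intro x hx
      rw [memN, MonoidHom.mem_ker.1 hx]; rfl
    exact Subgroup.finiteIndex_of_le this
  -- the labelled component
  set A : Set (FreeGroup B) := {x | ∃ h : κ x ∈ Y, Ψ x⁻¹ y0 = ⟨κ x, h⟩} with hA
  have A1 : (1 : FreeGroup B) ∈ A := ⟨y0mem, by rw [inv_one, map_one]; rfl⟩
  -- good edges are not split by `A`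
  have good : ∀ x b, κ x ∈ Y → κ (x * FreeGroup.of b) ∈ Y →
      (x ∈ A ↔ x * FreeGroup.of b ∈ A) := by
    intro x b hx hxb
    have e1 : FreeGroup.of b • κ (x * FreeGroup.of b) = κ x := by
      rw [κs, mul_inv_cancel_right]
    have e2 : σ b ⟨κ (x * FreeGroup.of b), hxb⟩ = ⟨κ x, hx⟩ := by
      rw [hσ b ⟨κ (x * FreeGroup.of b), hxb⟩ (by rw [e1]; exact hx)]
      exact Subtype.ext e1
    have e3 : Ψ x⁻¹ y0 = σ b (Ψ (x * FreeGroup.of b)⁻¹ y0) := by
      rw [mul_inv_rev, map_mul, map_inv Ψ (FreeGroup.of b), Ψof, Equiv.Perm.mul_apply]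
      exact ((σ b).apply_symm_apply _).symm
    constructor
    · rintro ⟨_, h⟩
      refine ⟨hxb, (σ b).injective ?_⟩
      rw [← e3, h, e2]
    · rintro ⟨_, h⟩
      exact ⟨hx, by rw [e3, h, e2]⟩
  have VA : V ⊆ A := hVA A A1 fun y b hy hyb => good y b ⟨y, hy, rfl⟩ ⟨_, hyb, rfl⟩
  have MN : M ≤ N₁ := by
    rw [← hT, Subgroup.closure_le]
    intro t ht
    obtain ⟨h, h'⟩ := VA (hVT t ht)
    have htM : t ∈ M := by rw [← hT]; exact Subgroup.subset_closure ht
    have e1 : κ t = κ 1 := by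
      have := κm t htM 1
      rwa [mul_one] at this
    have : t⁻¹ ∈ N₁ := by
      rw [memN, h']
      exact Subtype.ext e1
    exact inv_mem_iff.1 this
  have AM : ∀ m ∈ M, ∀ x, m * x ∈ A ↔ x ∈ A := by
    intro m hm x
    have e1 : Ψ (m * x)⁻¹ y0 = Ψ x⁻¹ y0 := by
      rw [mul_inv_rev, map_mul, Equiv.Perm.mul_apply,
        (memN _).1 (N₁.inv_mem (MN hm))]
    constructor
    · rintro ⟨h, h'⟩
      rw [e1] at h'
      refine ⟨by rw [← κm m hm x]; exact h, ?_⟩
      rw [h']; exact Subtype.ext (κm m hm x)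
    · rintro ⟨h, h'⟩
      refine ⟨by rw [κm m hm x]; exact h, ?_⟩
      rw [e1, h']; exact Subtype.ext (κm m hm x).symm
  -- edges of elements of `M` lie in `A`
  have eM : ∀ m ∈ M, ∀ e ∈ D m, e.1 ∈ A ∧ e.1 * FreeGroup.of e.2 ∈ A := by
    have : ∀ m ∈ Subgroup.closure (T : Set (FreeGroup B)),
        ∀ e ∈ D m, e.1 ∈ A ∧ e.1 * FreeGroup.of e.2 ∈ A := by
      intro m hm
      induction hm using Subgroup.closure_induction with
      | mem t ht => exact fun e he => ⟨VA (hVe t (hVT t ht) e he).1, VA (hVe t (hVT t ht) e he).2⟩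
      | one => exact fun e he => absurd he (D_one h2 e)
      | mul x y hx hy ihx ihy =>
        intro e he
        rw [h2] at he
        by_cases hex : e ∈ D x
        · exact ihx e hex
        · have h5 : (x⁻¹ * e.1, e.2) ∈ D y := by tauto
          have h6 := ihy _ h5
          simp only [mul_assoc] at h6
          have hxM : x⁻¹ ∈ M := M.inv_mem (by rw [← hT]; exact hx)
          rw [AM _ hxM, AM _ hxM] at h6
          exact h6
      | inv x hx ih =>
        intro e he
        rw [D_inv h2] at he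
        have h6 := ih _ he
        simp only [mul_assoc] at h6
        have hxM : x ∈ M := by rw [← hT]; exact hx
        rw [AM _ hxM, AM _ hxM] at h6
        exact h6
    rw [hT] at this
    exact this
  -- core edges
  set CE : Set (FreeGroup B × B) :=
    {e | ∃ n ∈ N₁, n * e.1 ∈ A ∧ n * (e.1 * FreeGroup.of e.2) ∈ A} with hCE
  have CEinv : ∀ n ∈ N₁, ∀ x b, ((n * x, b) ∈ CE ↔ (x, b) ∈ CE) := by
    intro n hn x b
    constructor
    · rintro ⟨k, hk, h5, h6⟩
      refine ⟨k * n, N₁.mul_mem hk hn, ?_, ?_⟩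
      · simpa only [mul_assoc] using h5
      · simpa only [mul_assoc] using h6
    · rintro ⟨k, hk, h5, h6⟩
      refine ⟨k * n⁻¹, N₁.mul_mem hk (N₁.inv_mem hn), ?_, ?_⟩
      · simpa only [mul_assoc, inv_mul_cancel_left] using h5
      · simpa only [mul_assoc, inv_mul_cancel_left] using h6
  have coreM : ∀ g ∈ M, ∀ e ∈ D g, e ∈ CE := by
    intro g hg e he
    exact ⟨1, N₁.one_mem, by simpa using (eM g hg e he).1, by simpa using (eM g hg e he).2⟩
  have Mcore : ∀ g ∈ N₁, (∀ e ∈ D g, e ∈ CE) → g ∈ M := by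
    intro g hg hcore
    have hgA : g ∈ A := by
      refine (h4 A g ?_).1 A1
      rintro ⟨x, b⟩ he
      obtain ⟨n, hn, ⟨h5, h5'⟩, ⟨h6, h6'⟩⟩ := hcore _ he
      simp only at h5 h5' h6 h6'
      have hn' : Ψ n⁻¹ y0 = y0 := (memN _).1 (N₁.inv_mem hn)
      rw [mul_inv_rev, map_mul, Equiv.Perm.mul_apply, hn'] at h5' h6'
      have e1 : FreeGroup.of b • κ (n * (x * FreeGroup.of b)) = κ (n * x) := by
        rw [κs, mul_assoc, mul_inv_cancel_right]
      constructor
      · rintro ⟨h7, h7'⟩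
        have e2 : κ x = κ (n * x) := by
          have := h7'.symm.trans h5'
          exact congrArg Subtype.val this
        have e3 : κ (x * FreeGroup.of b) = κ (n * (x * FreeGroup.of b)) := by
          apply MulAction.injective (FreeGroup.of b)
          simp only []
          rw [e1, κs, mul_inv_cancel_right, e2]
        refine ⟨by rw [e3]; exact h6, ?_⟩
        rw [h6']; exact Subtype.ext e3.symm
      · rintro ⟨h7, h7'⟩
        have e2 : κ (x * FreeGroup.of b) = κ (n * (x * FreeGroup.of b)) := by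
          have := h7'.symm.trans h6'
          exact congrArg Subtype.val this
        have e3 : κ x = κ (n * x) := by
          rw [← e1, ← e2, κs, mul_inv_cancel_right]
        refine ⟨by rw [e3]; exact h5, ?_⟩
        rw [h5']; exact Subtype.ext e3.symm
    obtain ⟨h5, h5'⟩ := hgA
    have h6 : Ψ g⁻¹ y0 = y0 := (memN _).1 (N₁.inv_mem hg)
    rw [h6] at h5'
    have h7 : κ 1 = κ g := congrArg Subtype.val h5'
    simp only [hκ] at h7
    rw [QuotientGroup.eq] at h7
    simpa using h7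
  refine ⟨N₁, hfi, MN, {p : Quotient (QuotientGroup.rightRel N₁) × B // (p.1.out, p.2) ∉ CE},
    fun i => {n | (i.1.1.out, i.1.2) ∈ D n.1}, ?_, ?_⟩
  · intro g
    have key : ∀ (n : N₁) (e : FreeGroup B × B),
        ¬ (e ∈ D n.1 ↔ e ∈ D (n * g).1) ↔ ((n.1)⁻¹ * e.1, e.2) ∈ D g.1 := by
      intro n e
      have := h2 n.1 g.1 e
      rw [Subgroup.coe_mul]
      tauto
    refine Set.Finite.subset (s := (fun p : N₁ × {p : Quotient (QuotientGroup.rightRel N₁) × B //
        (p.1.out, p.2) ∉ CE} => (((p.1 : FreeGroup B))⁻¹ * p.2.1.1.out, p.2.1.2)) ⁻¹' (D g.1))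
      ((hfin g.1).preimage ?_) ?_
    · rintro ⟨n, ⟨⟨q, b⟩, hi⟩⟩ _ ⟨n', ⟨⟨q', b'⟩, hi'⟩⟩ _ h
      obtain ⟨h5, h6⟩ := Prod.ext_iff.1 h
      simp only at h5 h6
      subst h6
      have hq : q = q' := by
        rw [← q.out_eq, ← q'.out_eq]
        apply Quotient.sound
        rw [← Quotient.eq_iff_equiv, Quotient.eq, QuotientGroup.rightRel_apply]
        have : q'.out * q.out⁻¹ = n'.1 * (n.1)⁻¹ := by
          rw [mul_inv_eq_iff_eq_mul, mul_assoc, h5, mul_inv_cancel_left]
        rw [this]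
        exact N₁.mul_mem n'.2 (N₁.inv_mem n.2)
      subst hq
      have hn : n = n' := by
        apply Subtype.ext
        have := mul_right_cancel h5
        exact inv_inj.1 this
      subst hn
      rfl
    · rintro ⟨n, i⟩ h
      exact (key n _).1 h
  · intro g
    rw [Subgroup.mem_subgroupOf]
    constructor
    · intro hg i x
      by_contra hc
      have h5 : ((x.1)⁻¹ * i.1.1.out, i.1.2) ∈ D g.1 := by
        have := h2 x.1 g.1 (i.1.1.out, i.1.2)
        simp only [Set.mem_ofPred_eq, Subgroup.coe_mul] at hc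
        tauto
      exact i.2 ((CEinv _ (N₁.inv_mem x.2) _ _).1 (coreM _ hg _ h5))
    · intro h
      refine Mcore g.1 g.2 ?_
      rintro ⟨x, b⟩ he
      by_contra hc
      set q : Quotient (QuotientGroup.rightRel N₁) := Quotient.mk _ x with hq
      have hr : x * q.out⁻¹ ∈ N₁ := by
        have : QuotientGroup.rightRel N₁ q.out x := Quotient.exact (q.out_eq.trans hq)
        rwa [QuotientGroup.rightRel_apply] at this
      have hr' : q.out * x⁻¹ ∈ N₁ := by
        have := N₁.inv_mem hr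
        rwa [mul_inv_rev, inv_inv] at this
      have hi : (q.out, b) ∉ CE := by
        intro h5
        apply hc
        rw [← CEinv _ hr']
        simpa using h5
      have h6 := h ⟨(q, b), hi⟩ ⟨_, hr'⟩
      simp only [Set.mem_ofPred_eq, Subgroup.coe_mul] at h6
      have h7 := h2 (q.out * x⁻¹) g.1 (q.out, b)
      simp only [mul_inv_rev, inv_inv, inv_mul_cancel_right] at h7
      tauto

end Pool.Agent.W809.MH
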