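import Pool.Agent.W839.Ch.Stubs

/-!
# Task CH-2 for helper839: operator norm and degrees of `G(n,p)`
-/

set_option autoImplicit false
open scoped Classical
open Finset Filter Topology

namespace Pool.Agent.W809.Ch2

open Pool.Agent.W839.Ch

/-- the bilinear form of the centred adjacency matrix -/
noncomputable def Bf {n : ℕ} (p : ℝ) (G : SimpleGraph (Fin n)) (x y : Fin n → ℝ) : ℝ :=
  ∑ u, ∑ v, (adj G u v - if u = v then 0 else p) * x u * y v

/-- value of a bit -/
noncomputable def bv (b : Bool) : ℝ := if b then 1 else 0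

lemma EB_prod {ι : Type} [Fintype ι] (p : ℝ) (g : ι → Bool → ℝ) :
    EB p (fun ω : ι → Bool => ∏ i, g i (ω i)) = ∏ i, (p * g i true + (1 - p) * g i false) := by
  unfold EB
  have h : ∀ i, p * g i true + (1 - p) * g i false = ∑ b : Bool, bw p b * g i b := by
    intro i
    rw [Fintype.sum_bool]
    simp [bw]
  rw [prod_congr rfl fun i _ => h i, Finset.prod_univ_sum, Fintype.piFinset_univ]
  refine sum_congr rfl fun ω _ => ?_
  rw [prod_mul_distrib]

lemma bw_nonneg {p : ℝ} (h0 : 0 < p) (h1 : p < 1) (b : Bool) : 0 ≤ bw p b := by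
  unfold bw
  split_ifs <;> linarith

lemma EB_mono {ι : Type} [Fintype ι] {p : ℝ} (h0 : 0 < p) (h1 : p < 1) {F F' : (ι → Bool) → ℝ}
    (h : ∀ ω, F ω ≤ F' ω) : EB p F ≤ EB p F' :=
  sum_le_sum fun ω _ => mul_le_mul_of_nonneg_left (h ω) (prod_nonneg fun _ _ => bw_nonneg h0 h1 _)

lemma EB_sum {ι κ : Type} [Fintype ι] (p : ℝ) (s : Finset κ) (F : κ → (ι → Bool) → ℝ) :
    EB p (fun ω => ∑ k ∈ s, F k ω) = ∑ k ∈ s, EB p (F k) := by
  unfold EB
  rw [sum_comm]
  refine sum_congr rfl fun ω _ => ?_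
  rw [mul_sum]

lemma EB_mul {ι : Type} [Fintype ι] (p c : ℝ) (F : (ι → Bool) → ℝ) :
    EB p (fun ω => F ω * c) = EB p F * c := by
  unfold EB
  rw [sum_mul]
  refine sum_congr rfl fun ω _ => ?_
  ring

lemma exp_le_add (x : ℝ) : Real.exp x ≤ x + Real.exp (x ^ 2) := by
  rcases le_or_gt |x| 1 with h | h
  · have h1 := Real.abs_exp_sub_one_sub_id_le h
    have h2 := (abs_le.1 h1).2
    have h3 := Real.add_one_le_exp (x ^ 2)
    linarith
  · rcases lt_abs.1 h with h1 | h1
    · have : Real.exp x ≤ Real.exp (x ^ 2) := Real.exp_le_exp.2 (by nlinarith)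
      linarith
    · have h2 : Real.exp x ≤ 1 := Real.exp_le_one_iff.2 (by linarith)
      have h3 := Real.add_one_le_exp (x ^ 2)
      nlinarith

lemma bern {p : ℝ} (h0 : 0 < p) (h1 : p < 1) (c : ℝ) :
    p * Real.exp (c * (1 - p)) + (1 - p) * Real.exp (c * (0 - p)) ≤ Real.exp (c ^ 2) := by
  have e1 := exp_le_add (c * (1 - p))
  have e2 := exp_le_add (c * (0 - p))
  have e3 : Real.exp ((c * (1 - p)) ^ 2) ≤ Real.exp (c ^ 2) := by
    apply Real.exp_le_exp.2
    rw [mul_pow]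
    have : (1 - p) ^ 2 ≤ 1 := by nlinarith
    nlinarith [sq_nonneg c]
  have e4 : Real.exp ((c * (0 - p)) ^ 2) ≤ Real.exp (c ^ 2) := by
    apply Real.exp_le_exp.2
    rw [mul_pow]
    have : (0 - p) ^ 2 ≤ 1 := by nlinarith
    nlinarith [sq_nonneg c]
  have e5 : p * Real.exp (c * (1 - p)) ≤ p * (c * (1 - p) + Real.exp (c ^ 2)) :=
    mul_le_mul_of_nonneg_left (by linarith) h0.le
  have e6 : (1 - p) * Real.exp (c * (0 - p)) ≤ (1 - p) * (c * (0 - p) + Real.exp (c ^ 2)) :=
    mul_le_mul_of_nonneg_left (by linarith) (by linarith)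
  nlinarith

theorem mgf {p : ℝ} (h0 : 0 < p) (h1 : p < 1) (n : ℕ) (x y : Fin n → ℝ) :
    EB p (fun ω : Sym2 (Fin n) → Bool => Real.exp (Bf p (gr ω) x y)) ≤
      Real.exp (2 * sn x * sn y) := by
  set g : Fin n × Fin n → ℝ := fun q => if q.1 = q.2 then 0 else x q.1 * y q.2 with hg
  set c : Sym2 (Fin n) → ℝ := fun e =>
    ∑ q ∈ univ.filter (fun q : Fin n × Fin n => s(q.1, q.2) = e), g q with hc
  have e1 : ∀ ω : Sym2 (Fin n) → Bool, Bf p (gr ω) x y = ∑ e, c e * (bv (ω e) - p) := by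
    intro ω
    have e2 : Bf p (gr ω) x y = ∑ q : Fin n × Fin n, g q * (bv (ω s(q.1, q.2)) - p) := by
      unfold Bf
      rw [Fintype.sum_prod_type]
      refine sum_congr rfl fun u _ => sum_congr rfl fun v _ => ?_
      simp only [hg, adj, gr, bv]
      by_cases huv : u = v
      · simp [huv]
      · simp only [huv, if_false, ne_eq, not_false_eq_true, true_and]
        ring
    rw [e2, ← sum_fiberwise univ (fun q : Fin n × Fin n => s(q.1, q.2))]
    refine sum_congr rfl fun e _ => ?_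
    rw [hc, sum_mul]
    refine sum_congr rfl fun q hq => ?_
    rw [(mem_filter.1 hq).2]
  have e2 : EB p (fun ω : Sym2 (Fin n) → Bool => Real.exp (Bf p (gr ω) x y)) =
      ∏ e, (p * Real.exp (c e * (1 - p)) + (1 - p) * Real.exp (c e * (0 - p))) := by
    have := EB_prod p (fun e b => Real.exp (c e * (bv b - p)))
    have e3 : ∀ ω : Sym2 (Fin n) → Bool, Real.exp (Bf p (gr ω) x y) =
        ∏ e, Real.exp (c e * (bv (ω e) - p)) := by
      intro ω
      rw [e1, Real.exp_sum]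
    simp_rw [e3]
    rw [this]
    simp [bv]
  have e3 : ∑ e, c e ^ 2 ≤ 2 * sn x * sn y := by
    have e4 : ∀ e : Sym2 (Fin n), c e ^ 2 ≤
        ∑ q ∈ univ.filter (fun q : Fin n × Fin n => s(q.1, q.2) = e), 2 * (x q.1 ^ 2 * y q.2 ^ 2) := by
      intro e
      refine (sq_sum_le_card_mul_sum_sq).trans ?_
      rw [← mul_sum]
      have e5 : ((univ.filter (fun q : Fin n × Fin n => s(q.1, q.2) = e)).card : ℝ) ≤ 2 := by
        have : (univ.filter (fun q : Fin n × Fin n => s(q.1, q.2) = e)).card ≤ 2 := by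
          induction e using Sym2.ind with
          | _ a b =>
            refine (card_le_card (t := {(a, b), (b, a)}) ?_).trans card_le_two
            intro q hq
            have := (mem_filter.1 hq).2
            rw [Sym2.eq_iff] at this
            rw [mem_insert, mem_singleton]
            rcases this with ⟨h3, h4⟩ | ⟨h3, h4⟩
            · left; exact Prod.ext h3 h4
            · right; exact Prod.ext h3 h4
        exact_mod_cast this
      refine mul_le_mul e5 ?_ (sum_nonneg fun q _ => sq_nonneg _) (by norm_num)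
      refine sum_le_sum fun q _ => ?_
      simp only [hg]
      split_ifs
      · rw [zero_pow two_ne_zero]; exact mul_nonneg (sq_nonneg _) (sq_nonneg _)
      · rw [mul_pow]
    refine (sum_le_sum fun e _ => e4 e).trans (le_of_eq ?_)
    rw [sum_fiberwise univ (fun q : Fin n × Fin n => s(q.1, q.2)), Fintype.sum_prod_type]
    simp only [sn]
    rw [mul_assoc, sum_mul_sum, mul_sum]
    refine sum_congr rfl fun u _ => ?_
    rw [mul_sum]
  rw [e2]
  calc ∏ e, (p * Real.exp (c e * (1 - p)) + (1 - p) * Real.exp (c e * (0 - p)))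
      ≤ ∏ e, Real.exp (c e ^ 2) := prod_le_prod
        (fun e _ => add_nonneg (mul_nonneg h0.le (Real.exp_pos _).le)
          (mul_nonneg (by linarith) (Real.exp_pos _).le)) (fun e _ => bern h0 h1 _)
    _ = Real.exp (∑ e, c e ^ 2) := (Real.exp_sum _ _).symm
    _ ≤ _ := Real.exp_le_exp.2 e3

lemma Pr_eq (hB : S_BIT) (n : ℕ) (p : ℝ) (P : SimpleGraph (Fin n) → Prop) :
    Pr n p P = EB p (fun ω : Sym2 (Fin n) → Bool => if P (gr ω) then (1 : ℝ) else 0) := by
  rw [hB n p (fun G => if P G then (1 : ℝ) else 0)]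
  unfold Pr
  refine sum_congr rfl fun G _ => ?_
  split_ifs <;> simp

lemma Pr_nonneg (hB : S_BIT) {p : ℝ} (h0 : 0 < p) (h1 : p < 1) (n : ℕ)
    (P : SimpleGraph (Fin n) → Prop) : 0 ≤ Pr n p P := by
  rw [Pr_eq hB]
  refine sum_nonneg fun ω _ => mul_nonneg (prod_nonneg fun _ _ => bw_nonneg h0 h1 _) ?_
  change (0 : ℝ) ≤ if P (gr ω) then (1 : ℝ) else 0
  split_ifs <;> norm_num

/-- union bound with exponential moments -/
lemma Pr_le (hB : S_BIT) {p : ℝ} (h0 : 0 < p) (h1 : p < 1) {n : ℕ} {κ : Type} (S : Finset κ)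
    (x y : κ → Fin n → ℝ) (t M : ℝ) (hM : ∀ k ∈ S, 2 * sn (x k) * sn (y k) ≤ M)
    (P : SimpleGraph (Fin n) → Prop) (hP : ∀ G, P G → ∃ k ∈ S, t ≤ Bf p G (x k) (y k)) :
    Pr n p P ≤ S.card * Real.exp (M - t) := by
  rw [Pr_eq hB]
  have e1 : ∀ ω : Sym2 (Fin n) → Bool, (if P (gr ω) then (1 : ℝ) else 0) ≤
      ∑ k ∈ S, Real.exp (Bf p (gr ω) (x k) (y k)) * Real.exp (-t) := by
    intro ω
    have hnn : ∀ k ∈ S, 0 ≤ Real.exp (Bf p (gr ω) (x k) (y k)) * Real.exp (-t) :=
      fun k _ => by positivity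
    split_ifs with h
    · obtain ⟨k, hk, hk'⟩ := hP _ h
      refine le_trans ?_ (single_le_sum hnn hk)
      rw [← Real.exp_add]
      exact Real.one_le_exp (by linarith)
    · exact sum_nonneg hnn
  refine (EB_mono h0 h1 e1).trans ?_
  rw [EB_sum]
  have e2 : ∀ k ∈ S, EB p (fun ω : Sym2 (Fin n) → Bool =>
      Real.exp (Bf p (gr ω) (x k) (y k)) * Real.exp (-t)) ≤ Real.exp (M - t) := by
    intro k hk
    rw [EB_mul, sub_eq_add_neg, Real.exp_add]
    exact mul_le_mul_of_nonneg_right ((mgf h0 h1 n _ _).trans (Real.exp_le_exp.2 (hM k hk)))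
      (Real.exp_pos _).le
  refine (sum_le_sum e2).trans (le_of_eq ?_)
  rw [sum_const, nsmul_eq_mul]

/-! ### the grid -/

/-- integer vectors of squared norm at most `4 n` -/
noncomputable def grid (n : ℕ) : Finset (Fin n → ℤ) :=
  (Fintype.piFinset (fun _ => Icc (-((2 * n : ℕ) : ℤ)) ((2 * n : ℕ) : ℤ))).filter
    (fun k => ∑ i, (k i : ℝ) ^ 2 ≤ 4 * n)

lemma mem_grid {n : ℕ} (k : Fin n → ℤ) (hk : ∑ i, (k i : ℝ) ^ 2 ≤ 4 * n) : k ∈ grid n := by
  unfold grid
  rw [mem_filter, Fintype.mem_piFinset]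
  refine ⟨fun i => ?_, hk⟩
  have e1 : (k i : ℝ) ^ 2 ≤ 4 * n :=
    (single_le_sum (f := fun i => (k i : ℝ) ^ 2) (fun i _ => sq_nonneg _) (mem_univ i)).trans hk
  have e2 : (k i) ^ 2 ≤ 4 * (n : ℤ) := by exact_mod_cast e1
  have hn : (1 : ℤ) ≤ n := by
    have := i.pos
    omega
  rw [mem_Icc]
  push_cast
  constructor <;> nlinarith

lemma sum_exp (N : ℕ) : ∑ j ∈ Icc (-(N : ℤ)) N, Real.exp (-(j : ℝ) ^ 2) ≤ 3 - 2 * (1 / 2) ^ N := by
  induction N with
  | zero => simp; norm_num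
  | succ N ih =>
    have e1 : Icc (-((N + 1 : ℕ) : ℤ)) ((N + 1 : ℕ) : ℤ) =
        insert ((N + 1 : ℕ) : ℤ) (insert (-((N + 1 : ℕ) : ℤ)) (Icc (-(N : ℤ)) N)) := by
      ext j
      simp only [mem_Icc, mem_insert]
      omega
    rw [e1, sum_insert, sum_insert]
    · have e2 : Real.exp (-(((N + 1 : ℕ) : ℤ) : ℝ) ^ 2) ≤ (1 / 2) ^ (N + 1) := by
        calc Real.exp (-(((N + 1 : ℕ) : ℤ) : ℝ) ^ 2) ≤ Real.exp (((N + 1 : ℕ) : ℝ) * (-1)) := by
              apply Real.exp_le_exp.2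
              push_cast
              have : (0 : ℝ) ≤ N := Nat.cast_nonneg _
              nlinarith
          _ = (Real.exp (-1)) ^ (N + 1) := by rw [← Real.exp_nat_mul]
          _ ≤ (1 / 2) ^ (N + 1) := by
              apply pow_le_pow_left₀ (Real.exp_pos _).le
              rw [Real.exp_neg, one_div]
              apply inv_anti₀ (by norm_num)
              have := Real.add_one_le_exp 1
              linarith
      have e3 : Real.exp (-((-((N + 1 : ℕ) : ℤ) : ℤ) : ℝ) ^ 2) =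
          Real.exp (-(((N + 1 : ℕ) : ℤ) : ℝ) ^ 2) := by
        congr 1
        push_cast
        ring
      rw [e3]
      have e4 : ((1 : ℝ) / 2) ^ (N + 1) = (1 / 2) ^ N * (1 / 2) := pow_succ _ _
      rw [e4] at e2 ⊢
      linarith
    · simp only [mem_Icc]; omega
    · simp only [mem_Icc, mem_insert]; omega

lemma card_grid (n : ℕ) : ((grid n).card : ℝ) ≤ Real.exp (6 * n) := by
  have e1 : ((grid n).card : ℝ) ≤ ∑ k ∈ grid n, Real.exp (4 * n) * ∏ i, Real.exp (-(k i : ℝ) ^ 2) := by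
    rw [card_eq_sum_ones, Nat.cast_sum]
    refine sum_le_sum fun k hk => ?_
    rw [← Real.exp_sum, ← Real.exp_add]
    push_cast
    apply Real.one_le_exp
    have := (mem_filter.1 hk).2
    rw [sum_neg_distrib]
    linarith
  refine e1.trans ?_
  have e2 : ∑ k ∈ grid n, Real.exp (4 * n) * ∏ i, Real.exp (-(k i : ℝ) ^ 2) ≤
      ∑ k ∈ Fintype.piFinset (fun _ : Fin n => Icc (-((2 * n : ℕ) : ℤ)) ((2 * n : ℕ) : ℤ)),
        Real.exp (4 * n) * ∏ i, Real.exp (-(k i : ℝ) ^ 2) := by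
    apply sum_le_sum_of_subset_of_nonneg (filter_subset _ _)
    intro k _ _
    positivity
  refine e2.trans ?_
  rw [← mul_sum, ← Finset.prod_univ_sum (fun _ : Fin n => Icc (-((2 * n : ℕ) : ℤ)) ((2 * n : ℕ) : ℤ))
    (fun _ j => Real.exp (-(j : ℝ) ^ 2)), prod_const, card_univ, Fintype.card_fin]
  have e3 := sum_exp (2 * n)
  have e4 : ∑ j ∈ Icc (-((2 * n : ℕ) : ℤ)) ((2 * n : ℕ) : ℤ), Real.exp (-(j : ℝ) ^ 2) ≤ Real.exp 2 := by
    have e5 : (0 : ℝ) ≤ 2 * (1 / 2) ^ (2 * n) := by positivity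
    have e6 := Real.add_one_le_exp 2
    linarith
  calc Real.exp (4 * n) * (∑ j ∈ Icc (-((2 * n : ℕ) : ℤ)) ((2 * n : ℕ) : ℤ),
        Real.exp (-(j : ℝ) ^ 2)) ^ n ≤ Real.exp (4 * n) * (Real.exp 2) ^ n := by
        apply mul_le_mul_of_nonneg_left _ (Real.exp_pos _).le
        exact pow_le_pow_left₀ (sum_nonneg fun _ _ => (Real.exp_pos _).le) e4 n
    _ = Real.exp (6 * n) := by
        rw [← Real.exp_nat_mul, ← Real.exp_add]
        congr 1
        ring

/-- rounding -/
lemma round {n : ℕ} (r : ℝ) (hr : 0 < r) (hrn : r ^ 2 = n) (x a : Fin n → ℝ) (hx : sn x ≤ 1) :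
    ∃ k ∈ grid n, ∑ u, x u * a u ≤ ∑ u, ((k u : ℝ) / r) * a u := by
  set k : Fin n → ℤ := fun u => if 0 ≤ a u then ⌈r * x u⌉ else ⌊r * x u⌋ with hk
  have h1 : ∀ u, |(k u : ℝ) - r * x u| ≤ 1 := by
    intro u
    simp only [hk]
    rw [abs_le]
    split_ifs
    · have e1 := Int.le_ceil (r * x u)
      have e2 := Int.ceil_lt_add_one (r * x u)
      constructor <;> linarith
    · have e1 := Int.floor_le (r * x u)
      have e2 := Int.lt_floor_add_one (r * x u)
      constructor <;> linarith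
  refine ⟨k, mem_grid k ?_, sum_le_sum fun u _ => ?_⟩
  · have h2 : ∀ u, (k u : ℝ) ^ 2 ≤ 2 * n * x u ^ 2 + 2 := by
      intro u
      have h3 : ((k u : ℝ) - r * x u) ^ 2 ≤ 1 := by
        have := sq_le_sq' (by linarith [neg_abs_le ((k u : ℝ) - r * x u), h1 u])
          (le_trans (le_abs_self _) (h1 u))
        simpa using this
      rw [← hrn]
      nlinarith [sq_nonneg ((k u : ℝ) - 2 * (r * x u))]
    refine (sum_le_sum fun u _ => h2 u).trans ?_
    rw [sum_add_distrib, ← mul_sum, sum_const, card_univ, Fintype.card_fin, nsmul_eq_mul]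
    have h3 : (2 * n : ℝ) * ∑ u, x u ^ 2 ≤ 2 * n * 1 :=
      mul_le_mul_of_nonneg_left hx (by positivity)
    linarith
  · have h2 : x u = (r * x u) / r := by field_simp
    rw [h2, div_mul_eq_mul_div, div_mul_eq_mul_div]
    apply div_le_div_of_nonneg_right _ hr.le
    simp only [hk]
    split_ifs with h
    · exact mul_le_mul_of_nonneg_right (Int.le_ceil _) h
    · push Not at h
      exact mul_le_mul_of_nonpos_right (Int.floor_le _) h.le

lemma Bf_left {n : ℕ} (p : ℝ) (G : SimpleGraph (Fin n)) (x y : Fin n → ℝ) :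
    Bf p G x y = ∑ u, x u * ∑ v, (adj G u v - if u = v then 0 else p) * y v := by
  unfold Bf
  refine sum_congr rfl fun u _ => ?_
  rw [mul_sum]
  refine sum_congr rfl fun v _ => ?_
  ring

lemma Bf_right {n : ℕ} (p : ℝ) (G : SimpleGraph (Fin n)) (x y : Fin n → ℝ) :
    Bf p G x y = ∑ v, y v * ∑ u, (adj G u v - if u = v then 0 else p) * x u := by
  unfold Bf
  rw [sum_comm]
  refine sum_congr rfl fun u _ => ?_
  rw [mul_sum]
  refine sum_congr rfl fun v _ => ?_
  ring

lemma Bf_smul {n : ℕ} (p : ℝ) (G : SimpleGraph (Fin n)) (x y : Fin n → ℝ) (a b : ℝ) :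
    Bf p G (fun u => a * x u) (fun u => b * y u) = a * b * Bf p G x y := by
  unfold Bf
  rw [mul_sum]
  refine sum_congr rfl fun u _ => ?_
  rw [mul_sum]
  refine sum_congr rfl fun v _ => ?_
  ring

lemma sn_smul {n : ℕ} (a : ℝ) (x : Fin n → ℝ) : sn (fun u => a * x u) = a ^ 2 * sn x := by
  unfold sn
  rw [mul_sum]
  refine sum_congr rfl fun u _ => ?_
  ring

lemma sn_nonneg {n : ℕ} (x : Fin n → ℝ) : 0 ≤ sn x := sum_nonneg fun _ _ => sq_nonneg _

/-- from the grid to all vectors -/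
lemma opN_of_grid {n : ℕ} (hn : 1 ≤ n) (p C : ℝ) (G : SimpleGraph (Fin n))
    (h : ∀ k ∈ grid n, ∀ k' ∈ grid n, Bf p G (fun u => (k u : ℝ) / Real.sqrt n)
      (fun u => (k' u : ℝ) / Real.sqrt n) ≤ C * Real.sqrt n) : OpN p C G := by
  have hr : 0 < Real.sqrt n := Real.sqrt_pos.2 (by exact_mod_cast hn)
  have hr2 : Real.sqrt n ^ 2 = n := Real.sq_sqrt (Nat.cast_nonneg _)
  set r := Real.sqrt n with hrdef
  have h1 : ∀ x y : Fin n → ℝ, sn x ≤ 1 → sn y ≤ 1 → Bf p G x y ≤ C * r := by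
    intro x y hx hy
    obtain ⟨k, hk, h2⟩ := round r hr hr2 x
      (fun u => ∑ v, (adj G u v - if u = v then 0 else p) * y v) hx
    rw [← Bf_left, ← Bf_left p G (fun u => (k u : ℝ) / r)] at h2
    obtain ⟨k', hk', h3⟩ := round r hr hr2 y
      (fun v => ∑ u, (adj G u v - if u = v then 0 else p) * ((k u : ℝ) / r)) hy
    rw [← Bf_right p G (fun u => (k u : ℝ) / r), ← Bf_right p G (fun u => (k u : ℝ) / r)
      (fun u => (k' u : ℝ) / r)] at h3
    exact h2.trans (h3.trans (h k hk k' hk'))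
  intro x y
  change (Bf p G x y) ^ 2 ≤ _
  rcases (sn_nonneg x).eq_or_lt with hx | hx
  · have hx0 : ∀ u, x u = 0 := by
      intro u
      have := (sum_eq_zero_iff_of_nonneg (s := univ) (f := fun u => x u ^ 2)
        (fun u _ => sq_nonneg _)).1 hx.symm u (mem_univ _)
      exact pow_eq_zero_iff (two_ne_zero) |>.1 this
    rw [← hx, Bf_left]
    simp [hx0]
  rcases (sn_nonneg y).eq_or_lt with hy | hy
  · have hy0 : ∀ u, y u = 0 := by
      intro u
      have := (sum_eq_zero_iff_of_nonneg (s := univ) (f := fun u => y u ^ 2)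
        (fun u _ => sq_nonneg _)).1 hy.symm u (mem_univ _)
      exact pow_eq_zero_iff (two_ne_zero) |>.1 this
    rw [← hy, Bf_right]
    simp [hy0]
  have hsx : 0 < Real.sqrt (sn x) := Real.sqrt_pos.2 hx
  have hsy : 0 < Real.sqrt (sn y) := Real.sqrt_pos.2 hy
  have hsx2 : Real.sqrt (sn x) ^ 2 = sn x := Real.sq_sqrt hx.le
  have hsy2 : Real.sqrt (sn y) ^ 2 = sn y := Real.sq_sqrt hy.le
  set a := Real.sqrt (sn x) with ha
  set b := Real.sqrt (sn y) with hb
  have e1 : sn (fun u => a⁻¹ * x u) ≤ 1 := by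
    rw [sn_smul, ← hsx2, inv_pow, inv_mul_cancel₀ (by positivity)]
  have e2 : sn (fun u => (-a⁻¹) * x u) ≤ 1 := by
    rw [sn_smul, ← hsx2, neg_sq, inv_pow, inv_mul_cancel₀ (by positivity)]
  have e3 : sn (fun u => b⁻¹ * y u) ≤ 1 := by
    rw [sn_smul, ← hsy2, inv_pow, inv_mul_cancel₀ (by positivity)]
  have f1 := h1 _ _ e1 e3
  have f2 := h1 _ _ e2 e3
  rw [Bf_smul] at f1 f2
  have g1 : Bf p G x y ≤ C * r * (a * b) := by
    have := mul_le_mul_of_nonneg_right f1 (mul_pos hsx hsy).le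
    calc Bf p G x y = a⁻¹ * b⁻¹ * Bf p G x y * (a * b) := by field_simp
      _ ≤ _ := this
  have g2 : -(C * r * (a * b)) ≤ Bf p G x y := by
    have := mul_le_mul_of_nonneg_right f2 (mul_pos hsx hsy).le
    have h3 : -Bf p G x y ≤ C * r * (a * b) := by
      calc -Bf p G x y = -a⁻¹ * b⁻¹ * Bf p G x y * (a * b) := by field_simp
        _ ≤ _ := this
    linarith
  calc (Bf p G x y) ^ 2 ≤ (C * r * (a * b)) ^ 2 := sq_le_sq' g2 g1
    _ = C ^ 2 * n * sn x * sn y := by rw [← hsx2, ← hsy2, ← hr2]; ring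

theorem opn (hB : S_BIT) : S_OPN := by
  intro p h0 h1
  refine ⟨45, by norm_num, ?_⟩
  have hlim : Tendsto (fun n : ℕ => Real.exp (-(n : ℝ))) atTop (𝓝 0) :=
    Real.tendsto_exp_neg_atTop_nhds_zero.comp tendsto_natCast_atTop_atTop
  refine tendsto_of_tendsto_of_tendsto_of_le_of_le' tendsto_const_nhds hlim
    (Eventually.of_forall fun n => Pr_nonneg hB h0 h1 n _) ?_
  filter_upwards [eventually_ge_atTop 1] with n hn
  have hr : 0 < Real.sqrt n := Real.sqrt_pos.2 (by exact_mod_cast hn)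
  have hr2 : Real.sqrt n ^ 2 = n := Real.sq_sqrt (Nat.cast_nonneg _)
  have hn0 : (0 : ℝ) < n := by exact_mod_cast hn
  have h2 := Pr_le hB h0 h1 (n := n) (grid n ×ˢ grid n)
    (fun q u => (q.1 u : ℝ))
    (fun q u => (Real.sqrt n)⁻¹ * (q.2 u : ℝ)) (45 * n) (32 * n) ?_
    (fun G => ¬ OpN p 45 G) ?_
  · refine h2.trans ?_
    rw [card_product]
    push_cast
    have h3 := card_grid n
    calc ((grid n).card : ℝ) * (grid n).card * Real.exp (32 * n - 45 * n) ≤
        Real.exp (6 * n) * Real.exp (6 * n) * Real.exp (32 * n - 45 * n) := by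
          apply mul_le_mul_of_nonneg_right _ (Real.exp_pos _).le
          exact mul_le_mul h3 h3 (Nat.cast_nonneg _) (Real.exp_pos _).le
      _ = Real.exp (-(n : ℝ)) := by
          rw [← Real.exp_add, ← Real.exp_add]
          congr 1
          ring
  · rintro ⟨k, k'⟩ hk
    rw [mem_product] at hk
    have g1 : sn (fun u => (k u : ℝ)) ≤ 4 * n := (mem_filter.1 hk.1).2
    have g2 : sn (fun u => (k' u : ℝ)) ≤ 4 * n := (mem_filter.1 hk.2).2
    simp only
    rw [sn_smul, inv_pow, hr2]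
    have g3 : (n : ℝ)⁻¹ * sn (fun u => (k' u : ℝ)) ≤ 4 := by
      rw [inv_mul_le_iff₀ hn0]; linarith
    have g4 : 0 ≤ (n : ℝ)⁻¹ * sn (fun u => (k' u : ℝ)) :=
      mul_nonneg (inv_nonneg.2 hn0.le) (sn_nonneg _)
    calc 2 * sn (fun u => (k u : ℝ)) * ((n : ℝ)⁻¹ * sn (fun u => (k' u : ℝ))) ≤ 2 * (4 * n) * 4 :=
          mul_le_mul (by linarith) g3 g4 (by positivity)
      _ = 32 * n := by ring
  · intro G hG
    by_contra hc
    push Not at hc
    apply hG
    apply opN_of_grid hn p 45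
    intro k hk k' hk'
    have h3 := (hc (k, k') (mem_product.2 ⟨hk, hk'⟩)).le
    simp only at h3
    have e1 : Bf p G (fun u => (k u : ℝ)) (fun u => (Real.sqrt n)⁻¹ * (k' u : ℝ)) =
        Real.sqrt n * Bf p G (fun u => (k u : ℝ) / Real.sqrt n) (fun u => (k' u : ℝ) / Real.sqrt n) := by
      have e2 := Bf_smul p G (fun u => (k u : ℝ)) (fun u => (k' u : ℝ)) 1 (Real.sqrt n)⁻¹
      have e3 := Bf_smul p G (fun u => (k u : ℝ)) (fun u => (k' u : ℝ)) (Real.sqrt n)⁻¹ (Real.sqrt n)⁻¹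
      simp only [one_mul] at e2
      simp only [div_eq_inv_mul]
      rw [e2, e3]
      field_simp
    rw [e1] at h3
    have e4 : (45 * n : ℝ) = Real.sqrt n * (45 * Real.sqrt n) := by
      rw [← mul_assoc, mul_comm (Real.sqrt n) 45, mul_assoc, ← sq, hr2]
    rw [e4] at h3
    exact le_of_mul_le_mul_left h3 hr

theorem degs (hB : S_BIT) : S_DEG := by
  intro p h0 h1 δ hδ
  have hlim : Tendsto (fun n : ℕ => 2 * ((n : ℝ) * Real.exp (-(δ ^ 2 / 32) * n))) atTop (𝓝 0) := by
    have e1 := (tendsto_rpow_mul_exp_neg_mul_atTop_nhds_zero 1 (δ ^ 2 / 32) (by positivity)).comp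
      (tendsto_natCast_atTop_atTop (R := ℝ))
    have e2 := e1.const_mul 2
    rw [mul_zero] at e2
    refine e2.congr fun n => ?_
    simp only [Function.comp_apply, Real.rpow_one]
  refine tendsto_of_tendsto_of_tendsto_of_le_of_le' tendsto_const_nhds hlim
    (Eventually.of_forall fun n => Pr_nonneg hB h0 h1 n _) ?_
  obtain ⟨n0, hn0⟩ := exists_nat_gt (2 * p / δ)
  filter_upwards [eventually_ge_atTop (max n0 1)] with n hn
  have hn1 : 1 ≤ n := (le_max_right _ _).trans hn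
  have hnr : (0 : ℝ) < n := by exact_mod_cast hn1
  have hpn : p ≤ δ * n / 2 := by
    have e1 : (2 * p / δ : ℝ) < n := lt_of_lt_of_le hn0 (by exact_mod_cast (le_max_left _ _).trans hn)
    rw [div_lt_iff₀ hδ] at e1
    linarith
  have h2 := Pr_le hB h0 h1 (n := n) ((univ : Finset (Fin n)) ×ˢ (univ : Finset Bool))
    (fun q u => (if q.2 then (δ / 8) else -(δ / 8)) * (if u = q.1 then (1 : ℝ) else 0))
    (fun _ _ => (1 : ℝ)) (δ ^ 2 / 16 * n) (δ ^ 2 / 32 * n) ?_
    (fun G => ¬ DG p δ G) ?_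
  · refine h2.trans (le_of_eq ?_)
    rw [card_product, card_univ, card_univ, Fintype.card_fin, Fintype.card_bool]
    push_cast
    have : δ ^ 2 / 32 * (n : ℝ) - δ ^ 2 / 16 * n = -(δ ^ 2 / 32) * n := by ring
    rw [this]
    ring
  · rintro ⟨v, b⟩ _
    simp only
    rw [sn_smul]
    have e1 : sn (fun u : Fin n => if u = v then (1 : ℝ) else 0) = 1 := by
      unfold sn
      simp
    have e2 : sn (fun _ : Fin n => (1 : ℝ)) = n := by
      unfold sn
      simp
    have e3 : (if b = true then δ / 8 else -(δ / 8)) ^ 2 = (δ / 8) ^ 2 := by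
      split_ifs
      · rfl
      · ring
    rw [e1, e2, e3]
    apply le_of_eq
    ring
  · intro G hG
    unfold DG at hG
    push Not at hG
    obtain ⟨v, hv⟩ := hG
    have e1 : ∀ b : Bool, Bf p G (fun u => (if b then (δ / 8) else -(δ / 8)) *
        (if u = v then (1 : ℝ) else 0)) (fun _ => (1 : ℝ)) =
        (if b then (δ / 8) else -(δ / 8)) * (deg G v - p * n + p) := by
      intro b
      have e2 := Bf_smul p G (fun u => if u = v then (1 : ℝ) else 0) (fun _ => (1 : ℝ))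
        (if b then (δ / 8) else -(δ / 8)) 1
      simp only [mul_one] at e2
      rw [e2, Bf_left]
      congr 1
      simp only [ite_mul, one_mul, zero_mul, sum_ite_eq', mem_univ, if_true, mul_one]
      rw [sum_sub_distrib]
      unfold deg
      have e3 : ∑ w : Fin n, (if v = w then (0 : ℝ) else p) = p * n - p := by
        have e4 : ∀ w : Fin n, (if v = w then (0 : ℝ) else p) = p - if v = w then p else 0 := by
          intro w; split_ifs <;> ring
        rw [sum_congr rfl fun w _ => e4 w, sum_sub_distrib, sum_const, card_univ, Fintype.card_fin,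
          nsmul_eq_mul, sum_ite_eq, if_pos (mem_univ _)]
        ring
      rw [e3]
      ring
    rcases lt_abs.1 hv with h | h
    · refine ⟨(v, true), by simp, le_of_le_of_eq ?_ (e1 true).symm⟩
      simp only [if_true]
      have : δ * n / 2 ≤ deg G v - p * n + p := by nlinarith
      calc δ ^ 2 / 16 * n = δ / 8 * (δ * n / 2) := by ring
        _ ≤ _ := mul_le_mul_of_nonneg_left this (by positivity)
    · refine ⟨(v, false), by simp, le_of_le_of_eq ?_ (e1 false).symm⟩
      simp only [Bool.false_eq_true, if_false]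
      have : δ * n / 2 ≤ -(deg G v - p * n + p) := by nlinarith
      calc δ ^ 2 / 16 * n = δ / 8 * (δ * n / 2) := by ring
        _ ≤ δ / 8 * (-(deg G v - p * n + p)) := mul_le_mul_of_nonneg_left this (by positivity)
        _ = _ := by ring

theorem main : S_BIT → S_BLK → S_OPN ∧ S_DEG := fun hB _ => ⟨opn hB, degs hB⟩

end Pool.Agent.W809.Ch2
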