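import Pool.Agent.W785.DF.Stubs2
import Pool.Agent.W785.DF.Alg
import Pool.Agent.H459R3.NS.Phys2

/-!
# Task DF2-TRIG for helper785: calculus of trigonometric vector fields
-/

open MeasureTheory Set
open scoped ContDiff InnerProductSpace

namespace Pool.Agent.W809.DFTrig

open H459R3.NS (V K3 Per pd fr fc ee cube)
open Pool.Agent.W785.DF

/-- complex trigonometric polynomial -/
noncomputable def TC (S : Finset K3) (γ : K3 → ℂ) (x : V) : ℂ := ∑ k ∈ S, γ k * ee k x

theorem tp_eq (S : Finset K3) (γ : K3 → ℂ) (x : V) : tp S γ x = (TC S γ x).re := rfl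

theorem TC_contDiff (S : Finset K3) (γ : K3 → ℂ) {n : WithTop ℕ∞} : ContDiff ℝ n (TC S γ) := by
  unfold TC
  exact ContDiff.sum fun k _ => contDiff_const.mul (H459R3.NS.ee_contDiff k)

theorem tp_contDiff (S : Finset K3) (γ : K3 → ℂ) {n : WithTop ℕ∞} : ContDiff ℝ n (tp S γ) :=
  Complex.reCLM.contDiff.comp (TC_contDiff S γ)

theorem tp_per (S : Finset K3) (γ : K3 → ℂ) : Per (tp S γ) := by
  intro i x
  unfold tp
  congr 1
  refine Finset.sum_congr rfl fun k _ => ?_
  rw [H459R3.NS.ee_per k i x]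

theorem pd_TC (S : Finset K3) (γ : K3 → ℂ) (j : Fin 3) (x : V) :
    pd j (TC S γ) x = TC S (fun k => 2 * Real.pi * Complex.I * (k j : ℂ) * γ k) x := by
  have hd : ∀ k ∈ S, HasFDerivAt (fun y => γ k * ee k y) (γ k • fderiv ℝ (ee k) x) x := by
    intro k _
    exact ((H459R3.NS.ee_contDiff k (n := 1)).differentiable one_ne_zero x).hasFDerivAt.const_mul
      (γ k)
  have h1 : HasFDerivAt (TC S γ) (∑ k ∈ S, γ k • fderiv ℝ (ee k) x) x := by
    have := HasFDerivAt.fun_sum hd
    exact this
  unfold pd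
  rw [h1.fderiv]
  simp only [sum_apply, smul_apply, smul_eq_mul]
  unfold TC
  refine Finset.sum_congr rfl fun k _ => ?_
  have := H459R3.NS.pd_ee k j x
  unfold pd at this
  rw [this]
  ring

theorem pd_tp (S : Finset K3) (γ : K3 → ℂ) (j : Fin 3) (x : V) :
    pd j (tp S γ) x = tp S (fun k => 2 * Real.pi * Complex.I * (k j : ℂ) * γ k) x := by
  rw [tp_eq, ← pd_TC]
  unfold pd
  have h1 : HasFDerivAt (TC S γ) (fderiv ℝ (TC S γ) x) x :=
    ((TC_contDiff S γ (n := 1)).differentiable one_ne_zero x).hasFDerivAt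
  have h2 : HasFDerivAt (tp S γ) (Complex.reCLM.comp (fderiv ℝ (TC S γ) x)) x :=
    Complex.reCLM.hasFDerivAt.comp x h1
  rw [h2.fderiv]
  rfl

/-- scalar version of `Herm` -/
structure HS (S : Finset K3) (γ : K3 → ℂ) : Prop where
  sset : ∀ k ∈ S, -k ∈ S
  sym : ∀ k, γ (-k) = (starRingEnd ℂ) (γ k)

theorem HS.real {S : Finset K3} {γ : K3 → ℂ} (h : HS S γ) (x : V) :
    (tp S γ x : ℂ) = TC S γ x := by
  rw [tp_eq, ← Complex.conj_eq_iff_re]
  unfold TC
  rw [map_sum]
  refine Finset.sum_bij (fun k _ => -k) (fun k hk => h.sset k hk)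
    (fun _ _ _ _ e => neg_injective e) (fun k hk => ⟨-k, h.sset k hk, neg_neg k⟩) ?_
  intro k _
  rw [map_mul, h.sym, H459R3.NS.ee_neg]

theorem HS.deriv {S : Finset K3} {γ : K3 → ℂ} (h : HS S γ) (j : Fin 3) :
    HS S (fun k => 2 * Real.pi * Complex.I * (k j : ℂ) * γ k) where
  sset := h.sset
  sym := by
    intro k
    simp only [map_mul, h.sym, Complex.conj_I, Complex.conj_ofReal, Pi.neg_apply, Int.cast_neg,
      Complex.conj_ofNat]
    rw [show (starRingEnd ℂ) ((k j : ℂ)) = (k j : ℂ) from map_intCast _ _]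
    ring

theorem Herm.hs {S : Finset K3} {b : K3 → E3} (h : Herm S b) (i : Fin 3) :
    HS S (fun k => b k i) where
  sset := h.sset
  sym := by
    intro k
    show b (-k) i = _
    rw [h.sym, cj_apply]
    rfl

theorem integral_sq {S : Finset K3} {γ : K3 → ℂ} (h : HS S γ) :
    ∫ x in cube, tp S γ x ^ 2 = ∑ k ∈ S, ‖γ k‖ ^ 2 := by
  have e1 : ((∫ x in cube, tp S γ x ^ 2 : ℝ) : ℂ) = ((∑ k ∈ S, ‖γ k‖ ^ 2 : ℝ) : ℂ) := by
    rw [← integral_complex_ofReal]
    have e2 : ∀ x, ((tp S γ x ^ 2 : ℝ) : ℂ) = ∑ k ∈ S, ∑ l ∈ S, γ k * γ l * ee (k + l) x := by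
      intro x
      push_cast
      rw [h.real, pow_two]
      unfold TC
      rw [Finset.sum_mul_sum]
      refine Finset.sum_congr rfl fun k _ => Finset.sum_congr rfl fun l _ => ?_
      rw [H459R3.NS.ee_add_left]
      ring
    simp_rw [e2]
    have hint : ∀ (c : ℂ) (k : K3), Integrable (fun x => c * ee k x) (volume.restrict cube) :=
      fun c k => H459R3.NS.integrableOn_cube (continuous_const.mul (H459R3.NS.ee_continuous k))
    rw [integral_finsetSum _ fun k _ => integrable_finsetSum _ fun l _ => hint _ _]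
    push_cast
    refine Finset.sum_congr rfl fun k hk => ?_
    rw [integral_finsetSum _ fun l _ => hint _ _]
    rw [Finset.sum_eq_single (-k)]
    · rw [integral_const_mul, H459R3.NS.integral_ee, if_pos (add_neg_cancel k), mul_one, h.sym]
      rw [Complex.mul_conj, Complex.normSq_eq_norm_sq]
      push_cast
      rfl
    · intro l _ hl
      rw [integral_const_mul, H459R3.NS.integral_ee, if_neg, mul_zero]
      intro e
      exact hl (eq_neg_of_add_eq_zero_right e)
    · intro hn
      exact absurd (h.sset k hk) hn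
  exact_mod_cast e1

theorem fr_tp {S : Finset K3} {γ : K3 → ℂ} (h : HS S γ) (hs : ∀ k, k ∉ S → γ k = 0) (k : K3) :
    fr (tp S γ) k = γ k := by
  unfold fr fc
  have e2 : ∀ x, ee (-k) x * (tp S γ x : ℂ) = ∑ l ∈ S, γ l * ee (l - k) x := by
    intro x
    rw [h.real]
    unfold TC
    rw [Finset.mul_sum]
    refine Finset.sum_congr rfl fun l _ => ?_
    rw [sub_eq_add_neg, H459R3.NS.ee_add_left]
    ring
  simp_rw [e2]
  have hint : ∀ (c : ℂ) (k : K3), Integrable (fun x => c * ee k x) (volume.restrict cube) :=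
    fun c k => H459R3.NS.integrableOn_cube (continuous_const.mul (H459R3.NS.ee_continuous k))
  rw [integral_finsetSum _ fun l _ => hint _ _]
  by_cases hk : k ∈ S
  · rw [Finset.sum_eq_single k]
    · rw [integral_const_mul, H459R3.NS.integral_ee, if_pos (sub_self k), mul_one]
    · intro l _ hl
      rw [integral_const_mul, H459R3.NS.integral_ee, if_neg (sub_ne_zero.2 hl), mul_zero]
    · exact fun hn => absurd hk hn
  · rw [hs k hk]
    refine Finset.sum_eq_zero fun l hl => ?_
    rw [integral_const_mul, H459R3.NS.integral_ee, if_neg, mul_zero]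
    intro e
    exact hk (sub_eq_zero.1 e ▸ hl)

theorem norm_sq_E3 (v : E3) : ‖v‖ ^ 2 = ∑ i, ‖v i‖ ^ 2 := EuclideanSpace.norm_sq_eq v

theorem tp_continuous (S : Finset K3) (γ : K3 → ℂ) : Continuous (tp S γ) :=
  (tp_contDiff S γ (n := 0)).continuous

theorem trig : S_trig := by
  intro S b hb
  have hpd : ∀ i j x, pd j (fun y => TP S b y i) x =
      tp S (fun k => 2 * Real.pi * Complex.I * (k j : ℂ) * b k i) x := fun i j x =>
    pd_tp S (fun k => b k i) j x
  refine ⟨?_, ?_, ?_, ?_, ?_, ?_, ?_, ?_⟩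
  · rw [contDiff_pi]
    intro i
    exact tp_contDiff S _
  · intro i x
    funext j
    exact tp_per S _ i x
  · intro G hG x i
    have e1 : ((∑ j, TP S b x j * pd j (fun y => TP S b y i) x : ℝ) : ℂ) =
        ∑ k ∈ G, (Nl S b k) i * ee k x := by
      have e2 : ∀ j, ((TP S b x j * pd j (fun y => TP S b y i) x : ℝ) : ℂ) =
          ∑ l ∈ S, ∑ m ∈ S, 2 * Real.pi * Complex.I * ((m j : ℂ) * b l j) * b m i * ee (m + l) x := by
        intro j
        rw [hpd]
        push_cast
        have e3 : (TP S b x j : ℂ) = TC S (fun k => b k j) x := (Herm.hs hb j).real x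
        rw [e3, ((Herm.hs hb i).deriv j).real x]
        unfold TC
        rw [Finset.sum_mul_sum]
        refine Finset.sum_congr rfl fun l _ => Finset.sum_congr rfl fun m _ => ?_
        rw [H459R3.NS.ee_add_left]
        ring
      rw [Complex.ofReal_sum]
      rw [Finset.sum_congr rfl fun j _ => e2 j]
      rw [Finset.sum_comm]
      have e3 : ∀ k, (Nl S b k) i * ee k x =
          ∑ l ∈ S, 2 * Real.pi * Complex.I * dk (k - l) (b l) * b (k - l) i * ee k x := by
        intro k
        unfold Nl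
        rw [WithLp.ofLp_sum, Finset.sum_apply, Finset.sum_mul]
        refine Finset.sum_congr rfl fun l _ => ?_
        rw [PiLp.smul_apply, smul_eq_mul]
      rw [Finset.sum_congr rfl fun k _ => e3 k, Finset.sum_comm (s := G)]
      refine Finset.sum_congr rfl fun l hl => ?_
      rw [Finset.sum_comm]
      have e4 : ∑ k ∈ G, 2 * Real.pi * Complex.I * dk (k - l) (b l) * b (k - l) i * ee k x =
          ∑ k ∈ S.image (fun m => m + l),
            2 * Real.pi * Complex.I * dk (k - l) (b l) * b (k - l) i * ee k x := by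
        symm
        apply Finset.sum_subset
        · intro k hk
          obtain ⟨m, hm, rfl⟩ := Finset.mem_image.1 hk
          exact hG m hm l hl
        · intro k _ hk
          have : k - l ∉ S := fun h => hk (Finset.mem_image.2 ⟨k - l, h, sub_add_cancel k l⟩)
          rw [hb.supp _ this]
          simp
      rw [e4, Finset.sum_image (fun a _ b _ h => add_right_cancel h)]
      refine Finset.sum_congr rfl fun m _ => ?_
      rw [add_sub_cancel_right, dk, Finset.mul_sum, Finset.sum_mul, Finset.sum_mul]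
    have e5 : TP G (Nl S b) x i = (∑ k ∈ G, (Nl S b k) i * ee k x).re := rfl
    rw [e5, ← e1, Complex.ofReal_re]
  · intro hdiv x
    rw [Finset.sum_congr rfl fun i _ => hpd i i x]
    unfold tp
    rw [← Complex.re_sum, Finset.sum_comm]
    have : ∑ k ∈ S, ∑ i : Fin 3, 2 * Real.pi * Complex.I * (k i : ℂ) * b k i * ee k x = 0 := by
      refine Finset.sum_eq_zero fun k _ => ?_
      have h1 : ∑ i : Fin 3, 2 * Real.pi * Complex.I * (k i : ℂ) * b k i * ee k x =
          2 * Real.pi * Complex.I * dk k (b k) * ee k x := by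
        rw [dk, Finset.mul_sum, Finset.sum_mul]
        exact Finset.sum_congr rfl fun i _ => by ring
      rw [h1, hdiv]
      ring
    rw [this, Complex.zero_re]
  · intro x i
    have h1 : ∀ j, pd j (pd j fun y => TP S b y i) x =
        tp S (fun k => 2 * Real.pi * Complex.I * (k j : ℂ) *
          (2 * Real.pi * Complex.I * (k j : ℂ) * b k i)) x := by
      intro j
      have h2 : (pd j fun y => TP S b y i) =
          tp S (fun k => 2 * Real.pi * Complex.I * (k j : ℂ) * b k i) := funext fun y => hpd i j y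
      rw [h2, pd_tp]
    rw [Finset.sum_congr rfl fun j _ => h1 j]
    unfold TP tp
    rw [← Complex.re_sum, Finset.sum_comm]
    congr 1
    refine Finset.sum_congr rfl fun k _ => ?_
    have h3 : ((-(4 * Real.pi ^ 2 * Pool.Agent.W785.DF.sq k) : ℝ) • b k) i =
        ((-(4 * Real.pi ^ 2 * Pool.Agent.W785.DF.sq k) : ℝ) : ℂ) * b k i := by
      rw [PiLp.smul_apply, Complex.real_smul]
    beta_reduce
    rw [h3]
    unfold Pool.Agent.W785.DF.sq
    push_cast
    have h4 : -(4 * (Real.pi : ℂ) ^ 2 * ∑ j, (k j : ℂ) ^ 2) * b k i * ee k x =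
        ∑ j : Fin 3, (-(4 * (Real.pi : ℂ) ^ 2) * (k j : ℂ) ^ 2 * b k i * ee k x) := by
      rw [← Finset.sum_mul, ← Finset.sum_mul, ← Finset.mul_sum]
      ring
    rw [h4]
    refine Finset.sum_congr rfl fun j _ => ?_
    linear_combination (4 * (Real.pi : ℂ) ^ 2 * (k j : ℂ) ^ 2 * b k i * ee k x) * Complex.I_sq
  · intro k
    ext i
    exact fr_tp (Herm.hs hb i) (fun k hk => by rw [hb.supp k hk]; rfl) k
  · rw [integral_finsetSum]
    · have h1 : ∀ i, ∫ x in cube, TP S b x i ^ 2 = ∑ k ∈ S, ‖b k i‖ ^ 2 :=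
        fun i => integral_sq (Herm.hs hb i)
      rw [Finset.sum_congr rfl fun i _ => h1 i, Finset.sum_comm]
      exact Finset.sum_congr rfl fun k _ => (norm_sq_E3 (b k)).symm
    · intro i _
      exact H459R3.NS.integrableOn_cube ((tp_continuous S (fun k => b k i)).pow 2)
  · have hint : ∀ i j, Integrable (fun x => pd j (fun y => TP S b y i) x ^ 2)
        (volume.restrict cube) := by
      intro i j
      have : (fun x => pd j (fun y => TP S b y i) x ^ 2) = fun x =>
          tp S (fun k => 2 * Real.pi * Complex.I * (k j : ℂ) * b k i) x ^ 2 := by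
        funext x; rw [hpd]
      rw [this]
      exact H459R3.NS.integrableOn_cube ((tp_continuous S _).pow 2)
    rw [integral_finsetSum _ fun i _ => integrable_finsetSum _ fun j _ => hint i j]
    have h1 : ∀ i j, ∫ x in cube, pd j (fun y => TP S b y i) x ^ 2 =
        ∑ k ∈ S, 4 * Real.pi ^ 2 * ((k j : ℝ) ^ 2 * ‖b k i‖ ^ 2) := by
      intro i j
      simp_rw [hpd]
      rw [integral_sq ((Herm.hs hb i).deriv j)]
      refine Finset.sum_congr rfl fun k _ => ?_
      simp only [norm_mul, Complex.norm_I, Complex.norm_real, Complex.norm_ofNat,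
        Real.norm_eq_abs, abs_of_pos Real.pi_pos, mul_one, Complex.norm_intCast, mul_pow, sq_abs]
      ring
    rw [Finset.sum_congr rfl fun i _ => integral_finsetSum _ fun j _ => hint i j]
    rw [Finset.sum_congr rfl fun i _ => Finset.sum_congr rfl fun j _ => h1 i j]
    rw [Finset.mul_sum]
    have h2 : ∀ i, ∑ j : Fin 3, ∑ k ∈ S, 4 * Real.pi ^ 2 * ((k j : ℝ) ^ 2 * ‖b k i‖ ^ 2) =
        ∑ k ∈ S, 4 * Real.pi ^ 2 * (Pool.Agent.W785.DF.sq k * ‖b k i‖ ^ 2) := by
      intro i
      rw [Finset.sum_comm]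
      refine Finset.sum_congr rfl fun k _ => ?_
      rw [← Finset.mul_sum, ← Finset.sum_mul]
      rfl
    rw [Finset.sum_congr rfl fun i _ => h2 i, Finset.sum_comm]
    refine Finset.sum_congr rfl fun k _ => ?_
    rw [← Finset.mul_sum, ← Finset.mul_sum, norm_sq_E3]

theorem grad : S_grad := by
  intro S π
  refine ⟨tp_contDiff S π, tp_per S π, ?_⟩
  intro x i
  rw [pd_tp]
  unfold TP tp
  congr 1
  refine Finset.sum_congr rfl fun k _ => ?_
  have : ((2 * Real.pi * Complex.I * π k) • kv k) i = 2 * Real.pi * Complex.I * π k * (k i : ℂ) := by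
    rw [PiLp.smul_apply, smul_eq_mul]
    rfl
  beta_reduce
  rw [this]
  ring

theorem main : S_trig ∧ S_grad := ⟨trig, grad⟩

end Pool.Agent.W809.DFTrig
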