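import Pool.Agent.W795.SK.Stmts

/-!
# Task SK-NODAL for helper795: length of the nodal set in logarithmic coordinates
-/

set_option autoImplicit false

open MeasureTheory Metric Set Filter

namespace Pool.Agent.W809.SKNodal

open Pool.Agent.W795.SK

/-- a set on which a real coordinate is bi-Lipschitz -/
lemma measure_le {S : Set ℂ} {p : ℂ → ℝ} {a b : ℝ} {K : NNReal}
    (hp : ∀ z ∈ S, a ≤ p z ∧ p z ≤ b)
    (hK : ∀ z ∈ S, ∀ z' ∈ S, ‖z - z'‖ ≤ K * |p z - p z'|) :
    μH[1] S ≤ ENNReal.ofReal (K * (b - a)) := by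
  classical
  set g : ℝ → ℂ := Function.invFunOn p S with hg
  have h1 : ∀ y ∈ p '' S, g y ∈ S ∧ p (g y) = y := fun y hy => Function.invFunOn_pos hy
  have hS : S ⊆ g '' (p '' S) := by
    intro z hz
    refine ⟨p z, ⟨z, hz, rfl⟩, ?_⟩
    obtain ⟨h2, h3⟩ := h1 (p z) ⟨z, hz, rfl⟩
    have := hK _ h2 _ hz
    rw [h3, sub_self, abs_zero, mul_zero] at this
    exact sub_eq_zero.1 (norm_le_zero_iff.1 this)
  have hL : LipschitzOnWith K g (p '' S) := by
    refine LipschitzOnWith.of_dist_le_mul ?_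
    intro y hy y' hy'
    obtain ⟨h2, h3⟩ := h1 y hy
    obtain ⟨h2', h3'⟩ := h1 y' hy'
    have := hK _ h2 _ h2'
    rw [h3, h3'] at this
    rw [dist_eq_norm, Real.dist_eq]
    exact this
  calc μH[1] S ≤ μH[1] (g '' (p '' S)) := measure_mono hS
    _ ≤ (K : ENNReal) ^ (1 : ℝ) * μH[1] (p '' S) :=
        hL.hausdorffMeasure_image_le (by norm_num)
    _ = K * volume (p '' S) := by rw [ENNReal.rpow_one, hausdorffMeasure_real]
    _ ≤ K * volume (Icc a b) := by
        apply mul_le_mul' le_rfl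
        apply measure_mono
        rintro y ⟨z, hz, rfl⟩
        exact hp z hz
    _ = ENNReal.ofReal (K * (b - a)) := by
        rw [Real.volume_Icc, ENNReal.ofReal_mul K.coe_nonneg, ENNReal.ofReal_coe_nnreal]

section mob

variable {ε : ℝ}

lemma normSq_one_add (ε : ℝ) (w : ℂ) :
    Complex.normSq (1 + ε * w) = 1 + 2 * ε * w.re + ε ^ 2 * Complex.normSq w := by
  simp only [Complex.normSq_apply, Complex.add_re, Complex.one_re, Complex.mul_re,
    Complex.ofReal_re, Complex.ofReal_im, Complex.add_im, Complex.one_im, Complex.mul_im]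
  ring

lemma norm_one_add_ge (h0 : 0 < ε) (h1 : ε ≤ 1 / 100) {w : ℂ} (hw : ‖w‖ ≤ 1) :
    99 / 100 ≤ ‖1 + (ε : ℂ) * w‖ := by
  have h2 : ‖(ε : ℂ) * w‖ ≤ 1 / 100 := by
    rw [norm_mul, Complex.norm_real, Real.norm_of_nonneg h0.le]
    nlinarith [norm_nonneg w]
  have h3 := norm_sub_le_norm_add (1 : ℂ) ((ε : ℂ) * w)
  rw [norm_one] at h3
  linarith

lemma one_add_ne (h0 : 0 < ε) (h1 : ε ≤ 1 / 100) {w : ℂ} (hw : ‖w‖ ≤ 1) :
    (1 + (ε : ℂ) * w) ≠ 0 := by
  intro h
  have := norm_one_add_ge h0 h1 hw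
  rw [h, norm_zero] at this
  linarith

lemma mob_re (h0 : 0 < ε) (h1 : ε ≤ 1 / 100) {w : ℂ} (hw : ‖w‖ ≤ 1) :
    (mob ε w).re * Complex.normSq (1 + ε * w) =
      (1 + ε ^ 2) * w.re + ε * (1 + Complex.normSq w) := by
  have h2 : Complex.normSq (1 + ε * w) ≠ 0 := by
    rw [Ne, Complex.normSq_eq_zero]
    exact one_add_ne h0 h1 hw
  unfold mob
  rw [Complex.div_re, add_mul, div_mul_cancel₀ _ h2, div_mul_cancel₀ _ h2]
  simp only [Complex.normSq_apply, Complex.add_re, Complex.one_re, Complex.mul_re,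
    Complex.ofReal_re, Complex.ofReal_im, Complex.add_im, Complex.one_im, Complex.mul_im]
  ring

lemma mob_mem (h0 : 0 < ε) (h1 : ε ≤ 1 / 100) {w : ℂ} (hw : ‖w‖ ≤ 1) :
    mob ε w ∈ closedBall (0 : ℂ) 1 := by
  rw [mem_closedBall, dist_zero_right]
  unfold mob
  rw [norm_div, div_le_one (by linarith [norm_one_add_ge h0 h1 hw])]
  have h2 : ‖w + ε‖ ^ 2 ≤ ‖1 + (ε : ℂ) * w‖ ^ 2 := by
    rw [Complex.sq_norm, Complex.sq_norm, normSq_one_add]
    have h3 : Complex.normSq w ≤ 1 := by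
      rw [← Complex.sq_norm]
      nlinarith [norm_nonneg w]
    have h4 : Complex.normSq (w + ε) = Complex.normSq w + 2 * ε * w.re + ε ^ 2 := by
      simp only [Complex.normSq_apply, Complex.add_re, Complex.ofReal_re, Complex.ofReal_im,
        Complex.add_im]
      ring
    rw [h4]
    have h5 : 0 ≤ (1 - ε ^ 2) * (1 - Complex.normSq w) :=
      mul_nonneg (by nlinarith) (by linarith)
    linarith
  exact le_of_sq_le_sq h2 (norm_nonneg _)

lemma mob_lip (h0 : 0 < ε) (h1 : ε ≤ 1 / 100) {w w' : ℂ} (hw : ‖w‖ ≤ 1) (hw' : ‖w'‖ ≤ 1) :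
    ‖mob ε w - mob ε w'‖ ≤ 2 * ‖w - w'‖ := by
  have e1 := norm_one_add_ge h0 h1 hw
  have e2 := norm_one_add_ge h0 h1 hw'
  have h2 : mob ε w - mob ε w' =
      ((1 - ε ^ 2 : ℝ) : ℂ) * (w - w') / ((1 + ε * w) * (1 + ε * w')) := by
    unfold mob
    rw [div_sub_div _ _ (one_add_ne h0 h1 hw) (one_add_ne h0 h1 hw')]
    congr 1
    push_cast
    ring
  rw [h2, norm_div, norm_mul, norm_mul, Complex.norm_real, div_le_iff₀ (by positivity)]
  have h3 : ‖(1 - ε ^ 2 : ℝ)‖ ≤ 1 := by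
    rw [Real.norm_eq_abs, abs_le]
    constructor <;> nlinarith
  have h4 : 1 / 2 ≤ ‖1 + (ε : ℂ) * w‖ * ‖1 + (ε : ℂ) * w'‖ := by nlinarith
  have h5 := norm_nonneg (w - w')
  calc ‖(1 - ε ^ 2 : ℝ)‖ * ‖w - w'‖ ≤ 1 * ‖w - w'‖ := mul_le_mul_of_nonneg_right h3 h5
    _ = 2 * ‖w - w'‖ * (1 / 2) := by ring
    _ ≤ _ := mul_le_mul_of_nonneg_left h4 (by positivity)

end mob

lemma exp_lip {W W' : ℂ} (h : W.re ≤ 0) (h' : W'.re ≤ 0) :
    ‖Complex.exp W - Complex.exp W'‖ ≤ ‖W - W'‖ := by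
  have hs : Convex ℝ {z : ℂ | z.re ≤ 0} := convex_halfSpace_re_le 0
  have := hs.norm_image_sub_le_of_norm_deriv_le (f := Complex.exp) (C := 1)
    (fun z _ => Complex.differentiable_exp z) (fun z hz => by
      rw [Complex.deriv_exp, Complex.norm_exp]
      exact Real.exp_le_one_iff.2 hz) h' h
  rwa [one_mul] at this

/-- the coefficient -/
noncomputable def aa (ε X : ℝ) : ℝ := ε / (1 + ε ^ 2) * (Real.exp X + Real.exp (-X))

noncomputable def f2 (ε : ℝ) (W : ℂ) : ℝ :=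
  (Real.exp (-W.re) + 2 * ε * Real.cos W.im + ε ^ 2 * Real.exp W.re) / (1 + ε ^ 2)

lemma exp_norm {W : ℂ} (h : W.re ≤ 0) : ‖Complex.exp W‖ ≤ 1 := by
  rw [Complex.norm_exp]; exact Real.exp_le_one_iff.2 h

lemma zero_eq {ε : ℝ} (h0 : 0 < ε) (h1 : ε ≤ 1 / 100) {W : ℂ} (hW : W.re ≤ 0) {v : ℝ}
    (h : (mob ε (Complex.exp W)).re + v = 0) :
    Real.cos W.im + aa ε W.re + f2 ε W * v = 0 := by
  have h2 := mob_re h0 h1 (exp_norm hW)
  have h3 : (mob ε (Complex.exp W)).re = -v := by linarith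
  have h4 : Complex.normSq (Complex.exp W) = Real.exp W.re ^ 2 := by
    rw [← Complex.sq_norm, Complex.norm_exp]
  rw [h3, normSq_one_add, h4, Complex.exp_re] at h2
  unfold aa f2
  have ht : 0 < Real.exp W.re := Real.exp_pos _
  rw [Real.exp_neg]
  generalize Real.exp W.re = t at *
  generalize Real.cos W.im = c at *
  have h5 : 0 < 1 + ε ^ 2 := by positivity
  have h6 : (c + ε / (1 + ε ^ 2) * (t + t⁻¹) + (t⁻¹ + 2 * ε * c + ε ^ 2 * t) / (1 + ε ^ 2) * v) *
      ((1 + ε ^ 2) * t) = 0 := by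
    field_simp
    linear_combination -h2
  rcases mul_eq_zero.1 h6 with h7 | h7
  · exact h7
  · exact absurd h7 (by positivity)

lemma abs_exp_sub {X X' m : ℝ} (h : Real.exp X ≤ m) (h' : Real.exp X' ≤ m) :
    |Real.exp X - Real.exp X'| ≤ m * |X - X'| := by
  have key : ∀ X X' : ℝ, Real.exp X ≤ m → X' ≤ X → |Real.exp X - Real.exp X'| ≤ m * |X - X'| := by
    intro X X' h hX
    rw [abs_of_nonneg (sub_nonneg.2 (Real.exp_le_exp.2 hX)), abs_of_nonneg (sub_nonneg.2 hX)]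
    have h2 := Real.add_one_le_exp (X' - X)
    have h3 : Real.exp X' = Real.exp X * Real.exp (X' - X) := by rw [← Real.exp_add]; congr 1; ring
    have h4 := Real.exp_pos X
    rw [h3]
    nlinarith
  rcases le_total X' X with hX | hX
  · exact key X X' h hX
  · rw [abs_sub_comm, abs_sub_comm X X']
    exact key X' X h' hX

/-- `exp` is expanding where it is large -/
lemma exp_sub_ge {X X' m : ℝ} (hX : X' ≤ X) (h' : m ≤ Real.exp X') :
    m * (X - X') ≤ Real.exp X - Real.exp X' := by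
  have h2 := Real.add_one_le_exp (X - X')
  have h3 : Real.exp X = Real.exp X' * Real.exp (X - X') := by rw [← Real.exp_add]; congr 1; ring
  have h4 := Real.exp_pos X'
  rw [h3]
  nlinarith

lemma exp_neg_le {ε X : ℝ} (h0 : 0 < ε) (hX : ε ≤ Real.exp X) : Real.exp (-X) ≤ 1 / ε := by
  rw [Real.exp_neg, one_div]
  exact inv_anti₀ h0 hX

lemma E_lip {ε : ℝ} (h0 : 0 < ε) (h1 : ε ≤ 1 / 100) {V : ℂ → ℝ}
    (hV : ∀ z ∈ closedBall (0 : ℂ) 1, |V z| ≤ ε / 8000)
    (hV' : ∀ z ∈ closedBall (0 : ℂ) 1, ∀ z' ∈ closedBall (0 : ℂ) 1,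
      |V z - V z'| ≤ ε / 8000 * ‖z - z'‖) {W W' : ℂ} (hW : W.re ≤ 0) (hW' : W'.re ≤ 0)
    (hX : ε / 2 ≤ Real.exp W.re) (hX' : ε / 2 ≤ Real.exp W'.re) :
    |f2 ε W * V (mob ε (Complex.exp W))| ≤ 1 / 1000 ∧
    |f2 ε W * V (mob ε (Complex.exp W)) - f2 ε W' * V (mob ε (Complex.exp W'))| ≤
      (|W.re - W'.re| + |W.im - W'.im|) / 1000 := by
  have hε2 : 0 < 1 + ε ^ 2 := by positivity
  have hb : ∀ W : ℂ, W.re ≤ 0 → ε / 2 ≤ Real.exp W.re → |f2 ε W| ≤ 21 / (10 * ε) := by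
    intro W hW hX
    unfold f2
    rw [abs_div, abs_of_pos hε2, div_le_iff₀ hε2]
    have e1 : Real.exp (-W.re) ≤ 2 / ε := by
      have := exp_neg_le (by positivity) hX
      rwa [one_div_div] at this
    have e2 := Real.exp_pos (-W.re)
    have e3 : Real.exp W.re ≤ 1 := Real.exp_le_one_iff.2 hW
    have e4 := Real.exp_pos W.re
    have e5 := Real.neg_one_le_cos W.im
    have e6 := Real.cos_le_one W.im
    have e7 : |Real.exp (-W.re) + 2 * ε * Real.cos W.im + ε ^ 2 * Real.exp W.re| ≤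
        2 / ε + 2 * ε + ε ^ 2 := by
      rw [abs_le]
      constructor
      · have : 0 ≤ 2 / ε := by positivity
        nlinarith [sq_nonneg ε]
      · nlinarith [sq_nonneg ε]
    refine e7.trans ?_
    have e8 : 21 / (10 * ε) = 2 / ε + 1 / (10 * ε) := by field_simp; norm_num
    have e9 : 2 * ε + ε ^ 2 ≤ 1 / (10 * ε) := by
      rw [le_div_iff₀ (by positivity)]
      nlinarith
    have e10 : 21 / (10 * ε) * (1 + ε ^ 2) ≥ 21 / (10 * ε) := by
      have : 0 ≤ 21 / (10 * ε) := by positivity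
      nlinarith [sq_nonneg ε]
    linarith
  have hl : |f2 ε W - f2 ε W'| ≤ 3 / ε * (|W.re - W'.re| + |W.im - W'.im|) := by
    unfold f2
    rw [← sub_div, abs_div, abs_of_pos hε2, div_le_iff₀ hε2]
    have e1 : |Real.exp (-W.re) - Real.exp (-W'.re)| ≤ 2 / ε * |W.re - W'.re| := by
      have h3 := exp_neg_le (by positivity) hX
      have h4 := exp_neg_le (by positivity) hX'
      rw [one_div_div] at h3 h4
      have := abs_exp_sub h3 h4
      rwa [show -W.re - -W'.re = -(W.re - W'.re) by ring, abs_neg] at this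
    have e2 : |Real.cos W.im - Real.cos W'.im| ≤ |W.im - W'.im| := Real.abs_cos_sub_cos_le _ _
    have e3 : |Real.exp W.re - Real.exp W'.re| ≤ 1 * |W.re - W'.re| :=
      abs_exp_sub (Real.exp_le_one_iff.2 hW) (Real.exp_le_one_iff.2 hW')
    have e4 : Real.exp (-W.re) + 2 * ε * Real.cos W.im + ε ^ 2 * Real.exp W.re -
        (Real.exp (-W'.re) + 2 * ε * Real.cos W'.im + ε ^ 2 * Real.exp W'.re) =
        (Real.exp (-W.re) - Real.exp (-W'.re)) + 2 * ε * (Real.cos W.im - Real.cos W'.im) +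
        ε ^ 2 * (Real.exp W.re - Real.exp W'.re) := by ring
    rw [e4]
    have e5 : |(Real.exp (-W.re) - Real.exp (-W'.re)) + 2 * ε * (Real.cos W.im - Real.cos W'.im) +
        ε ^ 2 * (Real.exp W.re - Real.exp W'.re)| ≤ 2 / ε * |W.re - W'.re| +
        2 * ε * |W.im - W'.im| + ε ^ 2 * (1 * |W.re - W'.re|) := by
      refine (abs_add_le _ _).trans (add_le_add ((abs_add_le _ _).trans (add_le_add e1 ?_)) ?_)
      · rw [abs_mul, abs_of_pos (by positivity : 0 < 2 * ε)]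
        exact mul_le_mul_of_nonneg_left e2 (by positivity)
      · rw [abs_mul, abs_of_pos (by positivity : 0 < ε ^ 2)]
        exact mul_le_mul_of_nonneg_left e3 (by positivity)
    refine e5.trans ?_
    have e6 : 3 / ε = 2 / ε + 1 / ε := by field_simp; norm_num
    have e7 : ε ^ 2 ≤ 1 / ε := by
      rw [le_div_iff₀ h0]
      nlinarith [sq_nonneg ε]
    have e8 : 2 * ε ≤ 3 / ε := by
      rw [le_div_iff₀ h0]
      nlinarith
    have e9 := abs_nonneg (W.re - W'.re)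
    have e10 := abs_nonneg (W.im - W'.im)
    have e11 : 0 ≤ 3 / ε * (|W.re - W'.re| + |W.im - W'.im|) := by positivity
    have e12 : 3 / ε * (|W.re - W'.re| + |W.im - W'.im|) ≤
        3 / ε * (|W.re - W'.re| + |W.im - W'.im|) * (1 + ε ^ 2) :=
      le_mul_of_one_le_right e11 (by nlinarith [sq_nonneg ε])
    refine le_trans ?_ e12
    rw [mul_add]
    have e13 := mul_le_mul_of_nonneg_right e8 e10
    have e14 := mul_le_mul_of_nonneg_right e7 e9
    rw [e6, add_mul, ← e6]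
    linarith
  have hm := mob_mem h0 h1 (exp_norm hW)
  have hm' := mob_mem h0 h1 (exp_norm hW')
  have hc : 21 / (10 * ε) * (ε / 8000) = 21 / 80000 := by field_simp; norm_num
  have hc2 : 3 / ε * (ε / 8000) = 3 / 8000 := by field_simp
  constructor
  · rw [abs_mul]
    calc |f2 ε W| * |V (mob ε (Complex.exp W))| ≤ 21 / (10 * ε) * (ε / 8000) :=
          mul_le_mul (hb W hW hX) (hV _ hm) (abs_nonneg _) (by positivity)
      _ ≤ 1 / 1000 := by rw [hc]; norm_num
  · set S := |W.re - W'.re| + |W.im - W'.im| with hS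
    have hS0 : 0 ≤ S := by positivity
    have hd : |V (mob ε (Complex.exp W)) - V (mob ε (Complex.exp W'))| ≤ ε / 8000 * (2 * S) := by
      refine (hV' _ hm _ hm').trans ?_
      apply mul_le_mul_of_nonneg_left _ (by positivity)
      refine (mob_lip h0 h1 (exp_norm hW) (exp_norm hW')).trans ?_
      apply mul_le_mul_of_nonneg_left _ (by norm_num)
      refine (exp_lip hW hW').trans ?_
      have := Complex.norm_le_abs_re_add_abs_im (W - W')
      rwa [Complex.sub_re, Complex.sub_im] at this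
    have e1 : f2 ε W * V (mob ε (Complex.exp W)) - f2 ε W' * V (mob ε (Complex.exp W')) =
        f2 ε W * (V (mob ε (Complex.exp W)) - V (mob ε (Complex.exp W'))) +
        (f2 ε W - f2 ε W') * V (mob ε (Complex.exp W')) := by ring
    rw [e1]
    calc |f2 ε W * (V (mob ε (Complex.exp W)) - V (mob ε (Complex.exp W'))) +
        (f2 ε W - f2 ε W') * V (mob ε (Complex.exp W'))| ≤
        |f2 ε W| * |V (mob ε (Complex.exp W)) - V (mob ε (Complex.exp W'))| +
        |f2 ε W - f2 ε W'| * |V (mob ε (Complex.exp W'))| := by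
          refine (abs_add_le _ _).trans (le_of_eq ?_)
          rw [abs_mul, abs_mul]
      _ ≤ 21 / (10 * ε) * (ε / 8000 * (2 * S)) + 3 / ε * S * (ε / 8000) :=
          add_le_add (mul_le_mul (hb W hW hX) hd (abs_nonneg _) (by positivity))
            (mul_le_mul hl (hV _ hm') (abs_nonneg _) (by positivity))
      _ = (21 / (10 * ε) * (ε / 8000)) * (2 * S) + (3 / ε * (ε / 8000)) * S := by ring
      _ ≤ S / 1000 := by rw [hc, hc2]; linarith

/-- `cos` is expanding near `π / 2` -/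
lemma cos_exp {Y Y' : ℝ} (hY : 0 ≤ Y) (hY2 : Y ≤ Real.pi) (hY' : 0 ≤ Y') (hY2' : Y' ≤ Real.pi)
    (hc : |Real.cos Y| ≤ 27 / 100) (hc' : |Real.cos Y'| ≤ 27 / 100) :
    9 / 10 * |Y - Y'| ≤ |Real.cos Y - Real.cos Y'| := by
  have key : ∀ Y Y' : ℝ, 0 ≤ Y' → Y ≤ Real.pi → |Real.cos Y| ≤ 27 / 100 →
      |Real.cos Y'| ≤ 27 / 100 → Y' < Y → 9 / 10 * |Y - Y'| ≤ |Real.cos Y - Real.cos Y'| := by
    intro Y Y' h0 h1 h2 h3 h4
    obtain ⟨c, hc, h5⟩ := exists_deriv_eq_slope Real.cos h4 Real.continuous_cos.continuousOn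
      Real.differentiable_cos.differentiableOn
    rw [Real.deriv_cos] at h5
    have h6 : Real.cos Y - Real.cos Y' = -Real.sin c * (Y - Y') := by
      rw [h5, div_mul_cancel₀ _ (by linarith)]
    rw [h6, abs_mul, abs_neg]
    apply mul_le_mul_of_nonneg_right _ (abs_nonneg _)
    have h7 : Real.cos c ≤ Real.cos Y' := Real.cos_le_cos_of_nonneg_of_le_pi h0
      (by linarith [hc.2]) hc.1.le
    have h8 : Real.cos Y ≤ Real.cos c := Real.cos_le_cos_of_nonneg_of_le_pi (by linarith [hc.1])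
      h1 hc.2.le
    have h9 := abs_le.1 h2
    have h10 := abs_le.1 h3
    have h11 := Real.sin_sq_add_cos_sq c
    have h12 : Real.cos c ^ 2 ≤ (27 / 100) ^ 2 := by
      apply sq_le_sq'
      · linarith
      · linarith
    have h13 : (9 / 10) ^ 2 ≤ |Real.sin c| ^ 2 := by
      rw [sq_abs]
      nlinarith
    exact le_of_sq_le_sq h13 (abs_nonneg _)
  rcases lt_trichotomy Y' Y with h | h | h
  · exact key Y Y' hY' hY2 hc hc' h
  · rw [h]; simp
  · rw [abs_sub_comm, abs_sub_comm (Real.cos Y)]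
    exact key Y' Y hY hY2' hc' hc h

/-- the two zeros are on a graph over the real part -/
lemma region1 {ε : ℝ} (h0 : 0 < ε) (h1 : ε ≤ 1 / 100) {X X' Y Y' E E' : ℝ}
    (hX : X ≤ 0) (hX' : X' ≤ 0) (h4 : 4 * ε ≤ Real.exp X) (h4' : 4 * ε ≤ Real.exp X')
    (hY : 0 ≤ Y) (hY2 : Y ≤ Real.pi) (hY' : 0 ≤ Y') (hY2' : Y' ≤ Real.pi)
    (hz : Real.cos Y + aa ε X + E = 0) (hz' : Real.cos Y' + aa ε X' + E' = 0)
    (hE : |E| ≤ 1 / 1000) (hE' : |E'| ≤ 1 / 1000)
    (hEE : |E - E'| ≤ (|X - X'| + |Y - Y'|) / 1000) : |Y - Y'| ≤ |X - X'| := by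
  have hε2 : 0 < 1 + ε ^ 2 := by positivity
  have hcf : ε / (1 + ε ^ 2) ≤ ε := by
    rw [div_le_iff₀ hε2]
    nlinarith [sq_nonneg ε]
  have hcf0 : 0 < ε / (1 + ε ^ 2) := by positivity
  have ha : ∀ X : ℝ, X ≤ 0 → 4 * ε ≤ Real.exp X → 0 ≤ aa ε X ∧ aa ε X ≤ 26 / 100 := by
    intro X hX h4
    unfold aa
    have e1 := exp_neg_le (by positivity) h4
    have e2 : Real.exp X ≤ 1 := Real.exp_le_one_iff.2 hX
    have e3 := Real.exp_pos X
    have e4 := Real.exp_pos (-X)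
    refine ⟨by positivity, ?_⟩
    calc ε / (1 + ε ^ 2) * (Real.exp X + Real.exp (-X)) ≤ ε * (1 + 1 / (4 * ε)) :=
          mul_le_mul hcf (add_le_add e2 e1) (by positivity) h0.le
      _ = ε + 1 / 4 := by field_simp
      _ ≤ 26 / 100 := by linarith
  have hcY : |Real.cos Y| ≤ 27 / 100 := by
    obtain ⟨e1, e2⟩ := ha X hX h4
    have e3 := abs_le.1 hE
    rw [abs_le]
    constructor <;> linarith
  have hcY' : |Real.cos Y'| ≤ 27 / 100 := by
    obtain ⟨e1, e2⟩ := ha X' hX' h4'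
    have e3 := abs_le.1 hE'
    rw [abs_le]
    constructor <;> linarith
  have hl : |aa ε X - aa ε X'| ≤ 26 / 100 * |X - X'| := by
    unfold aa
    rw [← mul_sub, abs_mul, abs_of_pos hcf0]
    have e1 : |Real.exp X - Real.exp X'| ≤ 1 * |X - X'| :=
      abs_exp_sub (Real.exp_le_one_iff.2 hX) (Real.exp_le_one_iff.2 hX')
    have e2 : |Real.exp (-X) - Real.exp (-X')| ≤ 1 / (4 * ε) * |X - X'| := by
      have := abs_exp_sub (exp_neg_le (by positivity) h4) (exp_neg_le (by positivity) h4')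
      rwa [show -X - -X' = -(X - X') by ring, abs_neg] at this
    have e3 : |Real.exp X + Real.exp (-X) - (Real.exp X' + Real.exp (-X'))| ≤
        (1 + 1 / (4 * ε)) * |X - X'| := by
      have : Real.exp X + Real.exp (-X) - (Real.exp X' + Real.exp (-X')) =
        (Real.exp X - Real.exp X') + (Real.exp (-X) - Real.exp (-X')) := by ring
      rw [this, add_mul]
      exact (abs_add_le _ _).trans (add_le_add e1 e2)
    calc ε / (1 + ε ^ 2) * |Real.exp X + Real.exp (-X) - (Real.exp X' + Real.exp (-X'))| ≤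
        ε * ((1 + 1 / (4 * ε)) * |X - X'|) := mul_le_mul hcf e3 (abs_nonneg _) h0.le
      _ = (ε + 1 / 4) * |X - X'| := by field_simp
      _ ≤ _ := mul_le_mul_of_nonneg_right (by linarith) (abs_nonneg _)
  have h5 := cos_exp hY hY2 hY' hY2' hcY hcY'
  have h6 : |Real.cos Y - Real.cos Y'| ≤ |aa ε X - aa ε X'| + |E - E'| := by
    have : Real.cos Y - Real.cos Y' = -((aa ε X - aa ε X') + (E - E')) := by linarith
    rw [this, abs_neg]
    exact abs_add_le _ _
  have h7 := abs_nonneg (X - X')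
  linarith

lemma region2 {ε : ℝ} (h0 : 0 < ε) (h1 : ε ≤ 1 / 100) {X X' Y Y' E E' : ℝ}
    (h4 : Real.exp X ≤ 4 * ε) (h4' : Real.exp X' ≤ 4 * ε)
    (hz : Real.cos Y + aa ε X + E = 0) (hz' : Real.cos Y' + aa ε X' + E' = 0)
    (hEE : |E - E'| ≤ (|X - X'| + |Y - Y'|) / 1000) : |X - X'| ≤ 5 * |Y - Y'| := by
  have hε2 : 0 < 1 + ε ^ 2 := by positivity
  have hcf0 : 0 < ε / (1 + ε ^ 2) := by positivity
  have key : ∀ X X' : ℝ, Real.exp X ≤ 4 * ε → X' ≤ X →
      24 / 100 * |X - X'| ≤ |aa ε X - aa ε X'| := by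
    intro X X' h4 hX
    rw [abs_of_nonneg (sub_nonneg.2 hX)]
    have e1 : 1 / (4 * ε) ≤ Real.exp (-X) := by
      rw [Real.exp_neg, one_div]
      exact inv_anti₀ (Real.exp_pos _) h4
    have e2 := exp_sub_ge (X := -X') (X' := -X) (neg_le_neg hX) e1
    have e3 := abs_exp_sub h4 ((Real.exp_le_exp.2 hX).trans h4)
    rw [abs_of_nonneg (sub_nonneg.2 (Real.exp_le_exp.2 hX)), abs_of_nonneg (sub_nonneg.2 hX)] at e3
    have e4 : (1 / (4 * ε) - 4 * ε) * (X - X') ≤
        -(Real.exp X + Real.exp (-X) - (Real.exp X' + Real.exp (-X'))) := by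
      have e5 : -X' - -X = X - X' := by ring
      rw [e5] at e2
      rw [sub_mul]
      linarith
    have e6 : aa ε X - aa ε X' =
        -(ε / (1 + ε ^ 2) * -(Real.exp X + Real.exp (-X) - (Real.exp X' + Real.exp (-X')))) := by
      unfold aa; ring
    rw [e6, abs_neg]
    refine le_trans ?_ (le_abs_self _)
    refine le_trans ?_ (mul_le_mul_of_nonneg_left e4 hcf0.le)
    rw [← mul_assoc]
    apply mul_le_mul_of_nonneg_right _ (sub_nonneg.2 hX)
    rw [div_mul_eq_mul_div, le_div_iff₀ hε2]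
    have e7 : ε * (1 / (4 * ε) - 4 * ε) = 1 / 4 - 4 * ε ^ 2 := by field_simp
    rw [e7]
    nlinarith
  have h5 : 24 / 100 * |X - X'| ≤ |aa ε X - aa ε X'| := by
    rcases le_total X' X with h | h
    · exact key X X' h4 h
    · rw [abs_sub_comm X, abs_sub_comm (aa ε X)]
      exact key X' X h4' h
  have h6 : |aa ε X - aa ε X'| ≤ |Real.cos Y - Real.cos Y'| + |E - E'| := by
    have : aa ε X - aa ε X' = -((Real.cos Y - Real.cos Y') + (E - E')) := by linarith
    rw [this, abs_neg]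
    exact abs_add_le _ _
  have h7 := Real.abs_cos_sub_cos_le Y Y'
  have h8 := abs_nonneg (Y - Y')
  have h9 := abs_nonneg (X - X')
  linarith

theorem nodal : S_nodal := by
  refine ⟨60, by norm_num, ?_⟩
  intro ε h0 h1
  refine ⟨ε / 8000, by positivity, ?_⟩
  intro V hV hV'
  -- no zeros near the origin
  have hfar : ∀ w ∈ closedBall (0 : ℂ) 1, (mob ε w).re + V (mob ε w) = 0 → ε / 2 ≤ ‖w‖ := by
    intro w hw hz
    rw [mem_closedBall, dist_zero_right] at hw
    by_contra hc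
    push Not at hc
    have e1 := mob_re h0 h1 hw
    have e2 := abs_le.1 (hV _ (mob_mem h0 h1 hw))
    have e3 : (mob ε w).re = -V (mob ε w) := by linarith
    have e4 := abs_le.1 (Complex.abs_re_le_norm w)
    have e5 : Complex.normSq (1 + ε * w) ≤ 2 := by
      rw [← Complex.sq_norm]
      have h5 : ‖1 + (ε : ℂ) * w‖ ≤ 1 + 1 / 100 := by
        refine (norm_add_le _ _).trans ?_
        rw [norm_one, norm_mul, Complex.norm_real, Real.norm_of_nonneg h0.le]
        nlinarith [norm_nonneg w]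
      nlinarith [norm_nonneg (1 + (ε : ℂ) * w)]
    have e6 := Complex.normSq_nonneg (1 + ε * w)
    have e7 := Complex.normSq_nonneg w
    rw [e3] at e1
    have e8 : -V (mob ε w) * Complex.normSq (1 + ε * w) ≤ ε / 8000 * 2 := by
      calc -V (mob ε w) * Complex.normSq (1 + ε * w) ≤ ε / 8000 * Complex.normSq (1 + ε * w) :=
            mul_le_mul_of_nonneg_right (by linarith) e6
        _ ≤ _ := mul_le_mul_of_nonneg_left e5 (by positivity)
    have e9 : -(ε / 2) * (1 + ε ^ 2) ≤ (1 + ε ^ 2) * w.re := by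
      rw [mul_comm]
      exact mul_le_mul_of_nonneg_left (by linarith) (by positivity)
    have e10 : 0 ≤ ε * Complex.normSq w := by positivity
    nlinarith
  refine ⟨hfar, ?_⟩
  set Z : Set ℂ := logSet {w | (mob ε w).re + V (mob ε w) = 0} with hZ
  -- the coordinates of the points of `Z`
  have hpt : ∀ W ∈ Z, W.re ≤ 0 ∧ 0 ≤ W.im ∧ W.im ≤ 2 * Real.pi ∧ ε / 2 ≤ Real.exp W.re ∧
      Real.cos W.im + aa ε W.re + f2 ε W * V (mob ε (Complex.exp W)) = 0 := by
    rintro W ⟨hW1, hW2, hW3, hW4⟩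
    have h2 := hfar _ (by rw [mem_closedBall, dist_zero_right]; exact exp_norm hW1) hW4
    rw [Complex.norm_exp] at h2
    exact ⟨hW1, hW2, hW3, h2, zero_eq h0 h1 hW1 hW4⟩
  set A1 : Set ℂ := {W ∈ Z | 4 * ε ≤ Real.exp W.re ∧ W.im ≤ Real.pi} with hA1
  set A2 : Set ℂ := {W ∈ Z | 4 * ε ≤ Real.exp W.re ∧ Real.pi ≤ W.im} with hA2
  set B : Set ℂ := {W ∈ Z | Real.exp W.re ≤ 4 * ε} with hB
  have hcover : Z ⊆ A1 ∪ A2 ∪ B := by
    intro W hW
    rcases le_total (Real.exp W.re) (4 * ε) with h | h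
    · exact Or.inr ⟨hW, h⟩
    · rcases le_total W.im Real.pi with h' | h'
      · exact Or.inl (Or.inl ⟨hW, h, h'⟩)
      · exact Or.inl (Or.inr ⟨hW, h, h'⟩)
  have hlog : ∀ X : ℝ, 4 * ε ≤ Real.exp X → Real.log (4 * ε) ≤ X := by
    intro X hX
    rw [← Real.log_exp X]
    exact Real.log_le_log (by positivity) hX
  have hnorm : ∀ W W' : ℂ, ‖W - W'‖ ≤ |W.re - W'.re| + |W.im - W'.im| := by
    intro W W'
    have := Complex.norm_le_abs_re_add_abs_im (W - W')
    rwa [Complex.sub_re, Complex.sub_im] at this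
  have m1 : μH[1] A1 ≤ ENNReal.ofReal (2 * (0 - Real.log (4 * ε))) := by
    have := measure_le (S := A1) (p := Complex.re) (a := Real.log (4 * ε)) (b := 0) (K := 2)
      (fun W hW => ⟨hlog _ hW.2.1, (hpt W hW.1).1⟩) ?_
    · simpa using! this
    · rintro W ⟨hW, hW1, hW2⟩ W' ⟨hW', hW1', hW2'⟩
      obtain ⟨a1, a2, a3, a4, a5⟩ := hpt W hW
      obtain ⟨b1, b2, b3, b4, b5⟩ := hpt W' hW'
      have hE := E_lip h0 h1 hV hV' a1 b1 a4 b4
      have hE' := (E_lip h0 h1 hV hV' b1 a1 b4 a4).1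
      have := region1 h0 h1 a1 b1 hW1 hW1' a2 hW2 b2 hW2' a5 b5 hE.1 hE' hE.2
      have h3 := hnorm W W'
      push_cast
      linarith
  have m2 : μH[1] A2 ≤ ENNReal.ofReal (2 * (0 - Real.log (4 * ε))) := by
    have := measure_le (S := A2) (p := Complex.re) (a := Real.log (4 * ε)) (b := 0) (K := 2)
      (fun W hW => ⟨hlog _ hW.2.1, (hpt W hW.1).1⟩) ?_
    · simpa using! this
    · rintro W ⟨hW, hW1, hW2⟩ W' ⟨hW', hW1', hW2'⟩
      obtain ⟨a1, a2, a3, a4, a5⟩ := hpt W hW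
      obtain ⟨b1, b2, b3, b4, b5⟩ := hpt W' hW'
      have hE := E_lip h0 h1 hV hV' a1 b1 a4 b4
      have hE' := (E_lip h0 h1 hV hV' b1 a1 b4 a4).1
      have c1 : Real.cos (2 * Real.pi - W.im) = Real.cos W.im := Real.cos_two_pi_sub _
      have c2 : Real.cos (2 * Real.pi - W'.im) = Real.cos W'.im := Real.cos_two_pi_sub _
      have c3 : |2 * Real.pi - W.im - (2 * Real.pi - W'.im)| = |W.im - W'.im| := by
        rw [show 2 * Real.pi - W.im - (2 * Real.pi - W'.im) = -(W.im - W'.im) by ring, abs_neg]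
      have := region1 h0 h1 a1 b1 hW1 hW1' (Y := 2 * Real.pi - W.im) (Y' := 2 * Real.pi - W'.im)
        (by linarith) (by linarith) (by linarith) (by linarith) (by rw [c1]; exact a5)
        (by rw [c2]; exact b5) hE.1 hE' (by rw [c3]; exact hE.2)
      rw [c3] at this
      have h3 := hnorm W W'
      push_cast
      linarith
  have m3 : μH[1] B ≤ ENNReal.ofReal (6 * (2 * Real.pi - 0)) := by
    have := measure_le (S := B) (p := Complex.im) (a := 0) (b := 2 * Real.pi) (K := 6)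
      (fun W hW => ⟨(hpt W hW.1).2.1, (hpt W hW.1).2.2.1⟩) ?_
    · simpa using! this
    · rintro W ⟨hW, hW1⟩ W' ⟨hW', hW1'⟩
      obtain ⟨a1, a2, a3, a4, a5⟩ := hpt W hW
      obtain ⟨b1, b2, b3, b4, b5⟩ := hpt W' hW'
      have hE := E_lip h0 h1 hV hV' a1 b1 a4 b4
      have := region2 h0 h1 hW1 hW1' a5 b5 hE.2
      have h3 := hnorm W W'
      push_cast
      linarith
  have hlog4 : Real.log (4 * ε) ≤ 0 := Real.log_nonpos (by positivity) (by linarith)
  have hlog5 : -Real.log (4 * ε) ≤ Real.log (1 / ε) := by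
    rw [one_div, Real.log_inv, Real.log_mul (by norm_num) h0.ne']
    have : 0 ≤ Real.log 4 := Real.log_nonneg (by norm_num)
    linarith
  have hpi := Real.pi_lt_four
  have hpi0 := Real.pi_pos
  calc μH[1] Z ≤ μH[1] (A1 ∪ A2 ∪ B) := measure_mono hcover
    _ ≤ μH[1] A1 + μH[1] A2 + μH[1] B :=
        (measure_union_le _ _).trans (add_le_add (measure_union_le _ _) le_rfl)
    _ ≤ ENNReal.ofReal (2 * (0 - Real.log (4 * ε))) + ENNReal.ofReal (2 * (0 - Real.log (4 * ε))) +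
        ENNReal.ofReal (6 * (2 * Real.pi - 0)) := add_le_add (add_le_add m1 m2) m3
    _ = ENNReal.ofReal (2 * (0 - Real.log (4 * ε)) + 2 * (0 - Real.log (4 * ε)) +
        6 * (2 * Real.pi - 0)) := by
        rw [ENNReal.ofReal_add, ENNReal.ofReal_add] <;> nlinarith
    _ ≤ ENNReal.ofReal (60 * (1 + Real.log (1 / ε))) := by
        apply ENNReal.ofReal_le_ofReal
        nlinarith

end Pool.Agent.W809.SKNodal
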